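import Mathlib
import Pool.Agent.W_52423f_h70.Defs

/-!
# Descent: counting and numbers
-/

open scoped Classical

noncomputable section

namespace PCL

theorem DsBox_aux {n : ℕ} (d : ℕ) : ∀ Y : Submodule ℚ (Fin n → ℚ), Module.finrank ℚ Y = d →
    ∃ I : Finset (Fin n), I.card ≤ d ∧ ∀ y ∈ Y, (∀ i ∈ I, y i = 0) → y = 0 := by
  induction d with
  | zero =>
    intro Y hY
    rw [Submodule.finrank_eq_zero] at hY
    exact ⟨∅, by simp, fun y hy _ => by simpa [hY] using hy⟩
  | succ d ih =>
    intro Y hY
    have hne : Y ≠ ⊥ := by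
      rintro rfl
      simp at hY
    obtain ⟨y, hy, hy0⟩ := Submodule.exists_mem_ne_zero_of_ne_bot hne
    obtain ⟨i, hi⟩ := Function.ne_iff.1 hy0
    have hi' : y i ≠ 0 := hi
    obtain ⟨Z, hZ⟩ : ∃ Z : Submodule ℚ (Fin n → ℚ),
        Z = Y ⊓ LinearMap.ker (LinearMap.proj i : (Fin n → ℚ) →ₗ[ℚ] ℚ) := ⟨_, rfl⟩
    have hZY : Z ≤ Y := hZ ▸ inf_le_left
    have hlt : Z < Y := by
      refine lt_of_le_of_ne hZY fun h => ?_
      have h1 : y ∈ Z := h ▸ hy
      rw [hZ] at h1
      exact hi' (LinearMap.mem_ker.1 h1.2)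
    have hle : Module.finrank ℚ Z ≤ d := by
      have := Submodule.finrank_lt_finrank_of_lt hlt
      omega
    have hge : d ≤ Module.finrank ℚ Z := by
      have h1 := Submodule.finrank_sup_add_finrank_inf_eq Y
        (LinearMap.ker (LinearMap.proj i : (Fin n → ℚ) →ₗ[ℚ] ℚ))
      have h2 := (LinearMap.proj i : (Fin n → ℚ) →ₗ[ℚ] ℚ).finrank_range_add_finrank_ker
      have h3 : Module.finrank ℚ (LinearMap.range (LinearMap.proj i : (Fin n → ℚ) →ₗ[ℚ] ℚ)) ≤ 1 := by
        simpa using Submodule.finrank_le (LinearMap.range (LinearMap.proj i : (Fin n → ℚ) →ₗ[ℚ] ℚ))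
      have h4 := Submodule.finrank_le
        (Y ⊔ LinearMap.ker (LinearMap.proj i : (Fin n → ℚ) →ₗ[ℚ] ℚ))
      rw [← hZ] at h1
      omega
    obtain ⟨I, hI, hI'⟩ := ih Z (le_antisymm hle hge)
    refine ⟨insert i I, (Finset.card_insert_le _ _).trans (by omega), fun z hz hz' => ?_⟩
    refine hI' z ?_ fun j hj => hz' j (Finset.mem_insert_of_mem hj)
    rw [hZ]
    exact ⟨hz, LinearMap.mem_ker.2 (hz' i (Finset.mem_insert_self _ _))⟩

/-- Coordinates which determine the elements of a subspace.  For a subspace `Y` of `ℚ ^ n` there is a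
set `I` of `dim Y` coordinates such that an element of `Y` with zero coordinates in `I` is zero.

Proof.  The coordinate functionals restricted to `Y` span the dual of `Y` (an element of `Y` on which
all of them vanish is zero), so there is a basis of the dual among them (`exists_linearIndependent`,
`Submodule.exists_fun_fin_finrank_span_eq` or `Basis.ofSpan`), consisting of `dim Y` functionals
(`Subspace.dual_finrank_eq`), and an element killed by a basis of the dual is zero.  Or by induction on
`dim Y`: if `Y ≠ 0` some coordinate `i` is not zero on `Y`, and `Y ⊓ ker (proj i)` has dimension `dim Y - 1`. -/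
theorem DsBox_coords {n : ℕ} (Y : Submodule ℚ (Fin n → ℚ)) :
    ∃ I : Finset (Fin n), I.card ≤ Module.finrank ℚ Y ∧ ∀ y ∈ Y, (∀ i ∈ I, y i = 0) → y = 0 := by
  obtain ⟨d, hd⟩ : ∃ d, d = Module.finrank ℚ Y := ⟨_, rfl⟩
  rw [← hd]
  exact DsBox_aux d Y hd.symm

theorem DsBox_aux2 {n : ℕ} (T : ℕ) (v : Fin n → ℤ) (hv : v ∈ box n T) (i : Fin n) :
    v i ∈ Finset.Icc (-(T : ℤ)) T := by
  simp only [box, Fintype.mem_piFinset] at hv
  exact hv i

/-- The number of integral vectors in a box and in a subspace of dimension `e`.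

Proof.  `DsBox_coords`; the map `v ↦ (v i)_{i ∈ I}` from the set to
`Fintype.piFinset fun _ : I => Finset.Icc (-T) T` is injective (the difference of two elements with the same
image is in `Y` and has zero coordinates in `I`), and the target has `(2 T + 1) ^ I.card` elements. -/
theorem card_box_sub {n : ℕ} (T : ℕ) (Y : Submodule ℚ (Fin n → ℚ)) :
    ((box n T).filter fun v => (fun i => (v i : ℚ)) ∈ Y).card ≤
      (2 * T + 1) ^ Module.finrank ℚ Y := by
  obtain ⟨I, hI, hI'⟩ := DsBox_coords Y
  have h1 : ((box n T).filter fun v => (fun i => (v i : ℚ)) ∈ Y).card ≤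
      (Fintype.piFinset fun _ : I => Finset.Icc (-(T : ℤ)) T).card := by
    refine Finset.card_le_card_of_injOn (fun v i => v i) ?_ ?_
    · intro v hv
      have hv1 := (Finset.mem_filter.1 (Finset.mem_coe.1 hv)).1
      simp only [Finset.mem_coe, Fintype.mem_piFinset]
      intro i
      exact DsBox_aux2 T v hv1 i
    · intro v hv w hw hvw
      have hv2 := (Finset.mem_filter.1 (Finset.mem_coe.1 hv)).2
      have hw2 := (Finset.mem_filter.1 (Finset.mem_coe.1 hw)).2
      have h3 : ((fun i => (v i : ℚ)) - fun i => (w i : ℚ)) = 0 := by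
        refine hI' _ (Y.sub_mem hv2 hw2) fun i hi => ?_
        have h4 := congrFun hvw ⟨i, hi⟩
        simp only at h4
        simp [h4]
      funext i
      have h5 := congrFun h3 i
      simp only [Pi.sub_apply, Pi.zero_apply, sub_eq_zero] at h5
      exact_mod_cast h5
  refine h1.trans ?_
  rw [Fintype.card_piFinset, Finset.prod_const, Finset.card_univ, Fintype.card_coe, Int.card_Icc]
  have h6 : ((T : ℤ) + 1 - -(T : ℤ)).toNat = 2 * T + 1 := by omega
  rw [h6]
  exact Nat.pow_le_pow_right (by omega) hI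

end PCL

end
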