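import Mathlib

/-!
# Descent: numbers
-/

open scoped Classical

noncomputable section

namespace PCL

/-- Proof.  Put `X = 2 S + 1`, so `4 S + 1 ≤ 2 X`.  `e ≤ n` (from `h1` and `0 < m`), so
`X ^ n ≤ c D ^ (m - d) 2 ^ n X ^ e`, hence `X ^ (n - e) ≤ c' D ^ (m - d)` with `c' = c 2 ^ n`.  Raise to the
power `m`: `X ^ (m (n - e)) ≤ c' ^ m D ^ (m (m - d))`.  By `h1`, `n (m - d) ≤ m (n - e)`, so
`(X ^ n) ^ (m - d) ≤ c' ^ m (D ^ m) ^ (m - d) ≤ (c' ^ m D ^ m) ^ (m - d)` (`c' ≥ 1` as `X ^ n ≥ 1`), and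
`m - d ≠ 0` (`Nat.pow_le_pow_iff_left` or `lt_of_pow_lt_pow_left₀`). -/
theorem DsBox_num {n m d e S D c : ℕ} (hd : d < m) (hD : 1 ≤ D)
    (h1 : n * (m - d) + m * e ≤ m * n)
    (h2 : (2 * S + 1) ^ n ≤ c * D ^ (m - d) * (2 * (2 * S) + 1) ^ e) :
    (2 * S + 1) ^ n ≤ (c * 2 ^ n) ^ m * D ^ m := by
  have hm : 0 < m := by omega
  have hX1 : 1 ≤ 2 * S + 1 := by omega
  have hen : e ≤ n := by
    have h3 : m * e ≤ m * n := by omega
    exact Nat.le_of_mul_le_mul_left h3 hm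
  have h4 : 2 * (2 * S) + 1 ≤ 2 * (2 * S + 1) := by omega
  generalize 2 * (2 * S) + 1 = Z at h2 h4
  generalize 2 * S + 1 = X at *
  obtain ⟨q, rfl⟩ := Nat.exists_eq_add_of_le hen
  have h5 : X ^ q ≤ c * 2 ^ (e + q) * D ^ (m - d) := by
    have h6 : X ^ e * X ^ q ≤ X ^ e * (c * 2 ^ (e + q) * D ^ (m - d)) := by
      calc X ^ e * X ^ q = X ^ (e + q) := (pow_add _ _ _).symm
        _ ≤ c * D ^ (m - d) * Z ^ e := h2
        _ ≤ c * D ^ (m - d) * (2 * X) ^ e := Nat.mul_le_mul_left _ (Nat.pow_le_pow_left h4 e)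
        _ = X ^ e * (c * 2 ^ e * D ^ (m - d)) := by rw [mul_pow]; ring
        _ ≤ X ^ e * (c * 2 ^ (e + q) * D ^ (m - d)) := by
          refine Nat.mul_le_mul_left _ (Nat.mul_le_mul_right _ (Nat.mul_le_mul_left _ ?_))
          exact Nat.pow_le_pow_right (by norm_num) (Nat.le_add_right _ _)
    exact Nat.le_of_mul_le_mul_left h6 (Nat.pow_pos (by omega))
  have hc1 : 1 ≤ c * 2 ^ (e + q) := by
    rcases Nat.eq_zero_or_pos (c * 2 ^ (e + q)) with h6 | h6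
    · rw [h6, zero_mul] at h5
      have := Nat.pow_pos (n := q) (show 0 < X by omega)
      omega
    · exact h6
  generalize c * 2 ^ (e + q) = c' at h5 hc1 ⊢
  have hk : m - d ≠ 0 := by omega
  have hqk : (e + q) * (m - d) ≤ q * m := by
    have h7 : m * (e + q) = m * e + q * m := by ring
    omega
  have h8 : (X ^ (e + q)) ^ (m - d) ≤ (c' ^ m * D ^ m) ^ (m - d) := by
    calc (X ^ (e + q)) ^ (m - d) = X ^ ((e + q) * (m - d)) := (pow_mul _ _ _).symm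
      _ ≤ X ^ (q * m) := Nat.pow_le_pow_right (by omega) hqk
      _ = (X ^ q) ^ m := pow_mul _ _ _
      _ ≤ (c' * D ^ (m - d)) ^ m := Nat.pow_le_pow_left h5 m
      _ = c' ^ m * (D ^ m) ^ (m - d) := by
        rw [mul_pow, ← pow_mul, ← pow_mul, mul_comm (m - d) m]
      _ ≤ (c' ^ m) ^ (m - d) * (D ^ m) ^ (m - d) := by
        refine Nat.mul_le_mul_right _ ?_
        exact Nat.le_self_pow hk _
      _ = (c' ^ m * D ^ m) ^ (m - d) := (mul_pow _ _ _).symm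
  exact (Nat.pow_le_pow_iff_left hk).1 h8

end PCL

end
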