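import Pool.Agent.W_52423f_h99.DsDefs

/-!
# Descent: the action on row vectors
-/

open scoped Classical

noncomputable section

namespace PCL

open Pool.Agent.PTwist Matrix

variable {F M : Type} [Field F] [Field M] [Algebra F M] {n m : ℕ}
  {ρ : (M ≃ₐ[F] M) →* GL (Fin n) ℤ}

theorem act_add (g : M ≃ₐ[F] M) (s t : Fin n → ℚ) :
    act ρ g (s + t) = act ρ g s + act ρ g t := by
  unfold act
  rw [Matrix.add_vecMul]

theorem act_smul (g : M ≃ₐ[F] M) (q : ℚ) (s : Fin n → ℚ) :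
    act ρ g (q • s) = q • act ρ g s := by
  unfold act
  rw [Matrix.smul_vecMul]

theorem act_zero (g : M ≃ₐ[F] M) : act ρ g 0 = 0 := by
  unfold act
  rw [Matrix.zero_vecMul]

/-- The cast of a product of integral matrices. -/
theorem DsAct_map_mul (A B : Matrix (Fin n) (Fin n) ℤ) :
    (A * B).map (Int.cast : ℤ → ℚ) = A.map (Int.cast : ℤ → ℚ) * B.map (Int.cast : ℤ → ℚ) := by
  ext i j
  simp [Matrix.mul_apply]

/-- The bilinear relation between the action on rows and the action on columns. -/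
theorem DsAct_dot (g : M ≃ₐ[F] M) (s x : Fin n → ℚ) :
    s ⬝ᵥ ((ρ g).val.map (Int.cast : ℤ → ℚ) *ᵥ x) = act ρ g⁻¹ s ⬝ᵥ x := by
  rw [Matrix.dotProduct_mulVec]
  unfold act
  rw [map_inv, inv_inv]

/-- Proof.  `s ρ(h)⁻¹ ρ(g)⁻¹ = s ρ(g h)⁻¹`: `Matrix.vecMul_vecMul`, `Matrix.map_mul` (for
`Int.castRingHom ℚ`), `map_mul`, `mul_inv_rev`. -/
theorem act_act (g h : M ≃ₐ[F] M) (s : Fin n → ℚ) :
    act ρ g (act ρ h s) = act ρ (g * h) s := by
  unfold act
  rw [Matrix.vecMul_vecMul, ← DsAct_map_mul, map_mul, _root_.mul_inv_rev]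
  rfl

theorem act_one (s : Fin n → ℚ) : act ρ 1 s = s := by
  unfold act
  rw [map_one, inv_one]
  have h : (((1 : GL (Fin n) ℤ)).val.map (Int.cast : ℤ → ℚ)) = 1 := by
    rw [Units.val_one]
    ext i j
    simp [Matrix.one_apply]
  rw [h, Matrix.vecMul_one]

/-- Proof.  As `Tw_cast_vecMul`. -/
theorem act_cast (g : M ≃ₐ[F] M) (v : Fin n → ℤ) :
    act ρ g (fun i => (v i : ℚ)) =
      fun i => (((v ᵥ* ((ρ g)⁻¹ : GL (Fin n) ℤ).val) i : ℤ) : ℚ) := by
  unfold act
  funext j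
  simp [Matrix.vecMul, dotProduct]

/-- Irreducibility for the action on row vectors.

Proof.  `U = {x | ∀ s ∈ Y, s ⬝ᵥ x = 0}` is stable under `ρ` (`Matrix.dotProduct_mulVec`, and
`s ᵥ* ρ(g) = act ρ g⁻¹ s ∈ Y`).  If `U = ⊤` then `Y = ⊥`.  If `U = ⊥` then `Y = ⊤`: otherwise there is a
nonzero functional which vanishes on `Y` (`Submodule.exists_le_ker_of_lt_top`), and it is the dot
product with some `x ≠ 0`; compare `Tw_span_top` in `Tw.lean`. -/
theorem irr_row (hρ : Irr ρ) (Y : Submodule ℚ (Fin n → ℚ))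
    (hY : ∀ g, ∀ s ∈ Y, act ρ g s ∈ Y) : Y = ⊥ ∨ Y = ⊤ := by
  let U : Submodule ℚ (Fin n → ℚ) :=
    { carrier := {x | ∀ s ∈ Y, s ⬝ᵥ x = 0}
      add_mem' := by
        intro a b ha hb s hs
        rw [dotProduct_add, ha s hs, hb s hs, add_zero]
      zero_mem' := by
        intro s _
        exact dotProduct_zero s
      smul_mem' := by
        intro q a ha s hs
        rw [dotProduct_smul, ha s hs, smul_zero] }
  have hU : ∀ x, x ∈ U ↔ ∀ s ∈ Y, s ⬝ᵥ x = 0 := fun x => Iff.rfl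
  have hst : ∀ g, ∀ x ∈ U, (ρ g).val.map (Int.cast : ℤ → ℚ) *ᵥ x ∈ U := by
    intro g x hx
    rw [hU] at hx ⊢
    intro s hs
    rw [DsAct_dot]
    exact hx _ (hY g⁻¹ s hs)
  rcases hρ U hst with h | h
  · right
    by_contra hne
    obtain ⟨f, hf0, hf⟩ := Submodule.exists_le_ker_of_lt_top _ (lt_top_iff_ne_top.mpr hne)
    apply hf0
    have hfe : ∀ v : Fin n → ℚ, f v = v ⬝ᵥ fun i => f (Pi.single i 1) := by
      intro v
      rw [LinearMap.pi_apply_eq_sum_univ f v]
      simp only [dotProduct, smul_eq_mul]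
      refine Finset.sum_congr rfl fun i _ => ?_
      congr 2
      ext j
      simp [Pi.single_apply, eq_comm]
    have hu : (fun i => f (Pi.single i 1)) ∈ U := by
      intro s hs
      rw [← hfe]
      exact hf hs
    rw [h, Submodule.mem_bot] at hu
    apply LinearMap.ext
    intro v
    rw [hfe v, hu]
    simp
  · left
    rw [Submodule.eq_bot_iff]
    intro s hs
    funext i
    have h1 : (Pi.single i 1 : Fin n → ℚ) ∈ U := by
      rw [h]
      exact Submodule.mem_top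
    have h2 := (hU _).1 h1 s hs
    rw [dotProduct_single, mul_one] at h2
    exact h2

end PCL

end
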