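import Pool.Agent.W_52423f_h99.DsAct
import Pool.Agent.W_52423f_h70.DsS

/-!
# Descent: the annihilators
-/

open scoped Classical

noncomputable section

namespace PCL

open Pool.Agent.PTwist Matrix

variable {F M : Type} [Field F] [Field M] [Algebra F M] {n m : ℕ}
  {ρ : (M ≃ₐ[F] M) →* GL (Fin n) ℤ}

variable {K : Type} [Field K] [CharZero K] {ι : (F →+* K) → (M →+* K)}
  {z : (F →+* K) → Fin m → Fin n → K} {κ κ' : Fin m → M} {s s' : Fin n → ℚ}

theorem Rl.zero_left (s : Fin n → ℚ) : Rl ρ ι z 0 s := by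
  intro a g
  simp

theorem Rl.add_left (h : Rl ρ ι z κ s) (h' : Rl ρ ι z κ' s) : Rl ρ ι z (κ + κ') s := by
  intro a g
  have h1 := h a g
  have h2 := h' a g
  simp only [Pi.add_apply, map_add, add_mul, Finset.sum_add_distrib, h1, h2, add_zero]

theorem Rl.smul_left (h : Rl ρ ι z κ s) (c : M) : Rl ρ ι z (c • κ) s := by
  intro a g
  have h1 := h a g
  simp only [Pi.smul_apply, smul_eq_mul, map_mul, mul_assoc]
  rw [← Finset.mul_sum, h1, mul_zero]

theorem Rl.zero_right (κ : Fin m → M) : Rl ρ ι z κ 0 := by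
  intro a g
  simp [act_zero]

theorem Rl.add_right (h : Rl ρ ι z κ s) (h' : Rl ρ ι z κ s') : Rl ρ ι z κ (s + s') := by
  intro a g
  have h1 := h a g
  have h2 := h' a g
  have h3 : ∀ j, ι a (g (κ j)) * ∑ i, ((act ρ g (s + s') i : ℚ) : K) * z a j i =
      ι a (g (κ j)) * ∑ i, ((act ρ g s i : ℚ) : K) * z a j i +
      ι a (g (κ j)) * ∑ i, ((act ρ g s' i : ℚ) : K) * z a j i := by
    intro j
    rw [← mul_add, ← Finset.sum_add_distrib]
    congr 1
    refine Finset.sum_congr rfl fun i _ => ?_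
    rw [act_add, Pi.add_apply, Rat.cast_add, add_mul]
  rw [Finset.sum_congr rfl fun j _ => h3 j, Finset.sum_add_distrib, h1, h2, add_zero]

theorem Rl.smul_right (h : Rl ρ ι z κ s) (q : ℚ) : Rl ρ ι z κ (q • s) := by
  intro a g
  have h1 := h a g
  have h3 : ∀ j, ι a (g (κ j)) * ∑ i, ((act ρ g (q • s) i : ℚ) : K) * z a j i =
      (q : K) * (ι a (g (κ j)) * ∑ i, ((act ρ g s i : ℚ) : K) * z a j i) := by
    intro j
    rw [Finset.mul_sum, Finset.mul_sum, Finset.mul_sum]
    refine Finset.sum_congr rfl fun i _ => ?_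
    rw [act_smul, Pi.smul_apply, smul_eq_mul, Rat.cast_mul]
    ring
  rw [Finset.sum_congr rfl fun j _ => h3 j, ← Finset.mul_sum, h1, mul_zero]

/-- Galois equivariance of the relation. -/
theorem Rl.act (h : Rl ρ ι z κ s) (g : M ≃ₐ[F] M) :
    Rl ρ ι z (fun j => g (κ j)) (act ρ g s) := by
  intro a g'
  have h1 := h a (g' * g)
  rw [act_act]
  exact h1

/-- The annihilator of a subspace of `M ^ m`. -/
def annR (ρ : (M ≃ₐ[F] M) →* GL (Fin n) ℤ) (ι : (F →+* K) → (M →+* K))
    (z : (F →+* K) → Fin m → Fin n → K) (U : Submodule M (Fin m → M)) :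
    Submodule ℚ (Fin n → ℚ) where
  carrier := {s | ∀ κ ∈ U, Rl ρ ι z κ s}
  zero_mem' := fun κ _ => Rl.zero_right κ
  add_mem' := fun hs ht κ hκ => (hs κ hκ).add_right (ht κ hκ)
  smul_mem' := fun q _ hs κ hκ => (hs κ hκ).smul_right q

theorem mem_annR {U : Submodule M (Fin m → M)} :
    s ∈ annR ρ ι z U ↔ ∀ κ ∈ U, Rl ρ ι z κ s := Iff.rfl

/-- The annihilator of a span. -/
theorem mem_annR_span {A : Set (Fin m → M)} :
    s ∈ annR ρ ι z (Submodule.span M A) ↔ ∀ κ ∈ A, Rl ρ ι z κ s := by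
  constructor
  · intro h κ hκ
    exact h κ (Submodule.subset_span hκ)
  · intro h κ hκ
    induction hκ using Submodule.span_induction with
    | mem x hx => exact h x hx
    | zero => exact Rl.zero_left s
    | add x y _ _ hx hy => exact hx.add_left hy
    | smul c x _ hx => exact hx.smul_left c

theorem annR_sup (U U' : Submodule M (Fin m → M)) :
    annR ρ ι z (U ⊔ U') = annR ρ ι z U ⊓ annR ρ ι z U' := by
  ext s
  rw [Submodule.mem_inf, mem_annR, mem_annR, mem_annR]
  constructor
  · intro h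
    exact ⟨fun κ hκ => h κ (Submodule.mem_sup_left hκ), fun κ hκ => h κ (Submodule.mem_sup_right hκ)⟩
  · rintro ⟨h1, h2⟩ κ hκ
    obtain ⟨a, ha, b, hb, rfl⟩ := Submodule.mem_sup.1 hκ
    exact (h1 a ha).add_left (h2 b hb)

theorem DsAnn_mem_gsub (g : M ≃ₐ[F] M) (U : Submodule M (Fin m → M)) (x : Fin m → M) :
    x ∈ gsub g U ↔ (fun j => g.symm (x j)) ∈ U := Iff.rfl

theorem DsAnn_inv_gsub (g : M ≃ₐ[F] M) (U : Submodule M (Fin m → M)) :
    gsub g⁻¹ (gsub g U) = U := by
  ext x
  rw [DsAnn_mem_gsub, DsAnn_mem_gsub]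
  have h : (fun j => g.symm ((g⁻¹).symm (x j))) = x := by
    funext j
    rw [AlgEquiv.aut_inv, AlgEquiv.symm_symm, AlgEquiv.symm_apply_apply]
  rw [h]

theorem DsAnn_le (g : M ≃ₐ[F] M) (U : Submodule M (Fin m → M)) :
    Module.finrank ℚ (annR ρ ι z U) ≤ Module.finrank ℚ (annR ρ ι z (gsub g U)) := by
  let φ : (Fin n → ℚ) →ₗ[ℚ] (Fin n → ℚ) :=
    { toFun := act ρ g
      map_add' := act_add g
      map_smul' := act_smul g }
  have hφ : ∀ s, φ s = act ρ g s := fun s => rfl
  have hinj : Function.Injective φ := by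
    intro s t hst
    rw [hφ, hφ] at hst
    have h1 := congrArg (act ρ g⁻¹) hst
    rw [act_act, act_act, inv_mul_cancel, act_one, act_one] at h1
    exact h1
  have hmap : ∀ s ∈ annR ρ ι z U, φ s ∈ annR ρ ι z (gsub g U) := by
    intro s hs κ hκ
    have h1 := (hs _ hκ).act g
    have h2 : (fun j => g ((fun j => g.symm (κ j)) j)) = κ := by
      funext j
      exact g.apply_symm_apply (κ j)
    rw [h2] at h1
    exact h1
  refine LinearMap.finrank_le_finrank_of_injective (f := φ.restrict hmap) ?_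
  intro s t hst
  apply Subtype.ext
  apply hinj
  exact congrArg Subtype.val hst

/-- Proof.  `act ρ g` is an injective linear map (`act_act`, `act_one`) which sends `annR U` into
`annR (gsub g U)` (`Rl.act`: for `κ ∈ gsub g U`, `κ = g ∘ (g.symm ∘ κ)` with `g.symm ∘ κ ∈ U`), so
`finrank (annR U) ≤ finrank (annR (gsub g U))` for all `g, U` (`LinearMap.finrank_le_finrank_of_injective`);
apply this also to `g⁻¹` and `gsub g U`, with `gsub g⁻¹ (gsub g U) = U`. -/
theorem annR_gsub (g : M ≃ₐ[F] M) (U : Submodule M (Fin m → M)) :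
    Module.finrank ℚ (annR ρ ι z (gsub g U)) = Module.finrank ℚ (annR ρ ι z U) := by
  refine le_antisymm ?_ (DsAnn_le g U)
  have h := DsAnn_le (ρ := ρ) (ι := ι) (z := z) g⁻¹ (gsub g U)
  rwa [DsAnn_inv_gsub] at h

/-- Proof.  Put `x j = algebraMap F M (b j)`.  `Y = annR (span {x})` is the set of all `s` with `Rl x s`
(`mem_annR_span`), it is stable by `Rl.act` because `g (x j) = x j` (`AlgEquiv.commutes`).  By `irr_row`
`Y = ⊥` or `Y = ⊤`.  In the first case `annR U ≤ Y = ⊥`.  In the second case take `s = Pi.single i 1` and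
`g = 1` (`act_one`): `∑ j, ι a (x j) * z a j i = 0`, i.e. `∑ j, a (b j) * z a j i = 0` for all `a, i`
(`hι`), so `b = 0` by `hind`, contradiction. -/
theorem annR_F (hρ : Irr ρ) (hι : ∀ a, (ι a).comp (algebraMap F M) = a)
    (hind : ∀ b : Fin m → F, (∀ a i, ∑ j, a (b j) * z a j i = 0) → b = 0)
    (U : Submodule M (Fin m → M)) (b : Fin m → F) (hb : b ≠ 0)
    (hU : (fun j => algebraMap F M (b j)) ∈ U) : annR ρ ι z U = ⊥ := by
  set x : Fin m → M := fun j => algebraMap F M (b j) with hx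
  have hY : ∀ g, ∀ s ∈ annR ρ ι z (Submodule.span M {x}),
      act ρ g s ∈ annR ρ ι z (Submodule.span M {x}) := by
    intro g s hs
    rw [mem_annR_span] at hs ⊢
    intro κ hκ
    rw [Set.mem_singleton_iff] at hκ
    subst hκ
    have h1 := (hs x (Set.mem_singleton x)).act g
    have h2 : (fun j => g (x j)) = x := by
      funext j
      exact g.commutes (b j)
    rwa [h2] at h1
  rcases irr_row hρ _ hY with h | h
  · rw [eq_bot_iff, ← h]
    intro s hs
    rw [mem_annR_span]
    intro κ hκ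
    rw [Set.mem_singleton_iff] at hκ
    subst hκ
    exact hs x hU
  · exfalso
    apply hb
    apply hind
    intro a i
    have h1 : (Pi.single i 1 : Fin n → ℚ) ∈ annR ρ ι z (Submodule.span M {x}) := by
      rw [h]
      exact Submodule.mem_top
    have h2 := (mem_annR_span.1 h1) x (Set.mem_singleton x) a 1
    rw [act_one] at h2
    rw [← h2]
    refine Finset.sum_congr rfl fun j _ => ?_
    have h3 : ι a ((1 : M ≃ₐ[F] M) (x j)) = a (b j) := by
      rw [AlgEquiv.one_apply]
      exact RingHom.congr_fun (hι a) (b j)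
    rw [h3]
    congr 1
    rw [Finset.sum_eq_single i]
    · simp
    · intro i' _ hi'
      rw [Pi.single_eq_of_ne hi']
      simp
    · intro hi
      exact absurd (Finset.mem_univ i) hi

/-- The slope inequality for the relations between the logarithms. -/
theorem slope_annR [FiniteDimensional F M] [IsGalois F M] (hρ : Irr ρ)
    (hι : ∀ a, (ι a).comp (algebraMap F M) = a)
    (hind : ∀ b : Fin m → F, (∀ a i, ∑ j, a (b j) * z a j i = 0) → b = 0)
    (U : Submodule M (Fin m → M)) :
    n * Module.finrank M U + m * Module.finrank ℚ (annR ρ ι z U) ≤ m * n := by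
  have h := slope (F := F) (M := M) (fun U => annR ρ ι z U) (fun U U' => annR_sup U U')
    (fun g U => annR_gsub g U) (fun U b hb hU => annR_F hρ hι hind U b hb hU) U
  rwa [Module.finrank_fin_fun] at h

end PCL

end
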