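import Pool.Agent.W_52423f_h99.DsLg

/-!
# Descent: consequences of the independence over `F`
-/

open scoped Classical

noncomputable section

namespace PCL

open Pool.Agent.PTwist WeierstrassCurve WeierstrassCurve.Affine Matrix PowerSeries

variable {p : ℕ} [Fact p.Prime] {K : Type} [NontriviallyNormedField K] [CompleteSpace K]
  [IsUltrametricDist K] [NormedAlgebra ℚ_[p] K] {F M : Type} [Field F] [Field M] [Algebra F M]
  {W : WeierstrassCurve F} [(W⁄M).IsElliptic] {ι : (F →+* K) → (M →+* K)}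
  {r₀ : (F →+* K) → ℝ} {n m : ℕ} {u : Fin m → Fin n → (W⁄M).toAffine.Point}
  {z : (F →+* K) → Fin m → Fin n → K} {ρ : (M ≃ₐ[F] M) →* GL (Fin n) ℤ}

/-- The points `∑ i, v i • u j i`, `v ≠ 0`, are not the origin.

Proof.  By `IsTw.indep` it is enough that `N • u j ≠ 0` for `N ≠ 0`.  If `N • u j = 0` then for all
`a, i`: `expPt (N z a j i) = N • pmap (u j i) = pmap (N • u j i) = 0 = expPt 0` (`expPt_zsmul`,
`pmap_zsmul`, `expPt_zero`), so `N z a j i = 0` (`expPt_inj` in `ExpAdd.lean`; `‖N z‖ ≤ rad` because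
`IsUltrametricDist.norm_intCast_le_one`), `z a j i = 0` (characteristic zero, `Loc_charZero p K`), and `hind`
for `b = Pi.single j 1` gives `b = 0`, contradiction. -/
theorem LogData.hne (hρ : Irr ρ) (h : LogData p W ι r₀ u z) (hu : ∀ j, IsTw W ρ (u j))
    (hind : ∀ b : Fin m → F, (∀ a i, ∑ j, a (b j) * z a j i = 0) → b = 0)
    (v : Fin n → ℤ) (hv : v ≠ 0) (j : Fin m) : ∑ i, v i • u j i ≠ 0 := by
  intro h0
  apply hv
  refine IsTw.indep (hu j) hρ ?_ h0
  intro N hN hNu
  have hc := Loc_charZero p K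
  have hz : ∀ a i, z a j i = 0 := by
    intro a i
    have h1 : N • u j i = 0 := congrFun hNu i
    have h2 : expPt ((W⁄M).map (ι a)) (N • z a j i) = 0 := by
      rw [expPt_zsmul ((W⁄M).map (ι a)) (h.lc a) (h.ball a j i), h.pts, ← pmap_zsmul, h1, pmap_zero]
    have h3 : ‖N • z a j i‖ ≤ rad (r₀ a) := by
      rw [zsmul_eq_mul, norm_mul]
      have h4 := IsUltrametricDist.norm_intCast_le_one K N
      calc ‖(N : K)‖ * ‖z a j i‖ ≤ 1 * ‖z a j i‖ :=
            mul_le_mul_of_nonneg_right h4 (norm_nonneg _)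
        _ = ‖z a j i‖ := one_mul _
        _ ≤ rad (r₀ a) := h.ball a j i
    have h4 := (expPt_eq_zero_iff ((W⁄M).map (ι a)) (h.lc a) h3).1 h2
    rw [zsmul_eq_mul] at h4
    exact (mul_eq_zero.1 h4).resolve_left (Int.cast_ne_zero.2 hN)
  have hb := hind (Pi.single j 1) (fun a i => by
    rw [Finset.sum_eq_single j]
    · rw [hz, mul_zero]
    · intro j' _ hj'
      rw [Pi.single_eq_of_ne hj', map_zero, zero_mul]
    · intro hj
      exact absurd (Finset.mem_univ j) hj)
  have hb1 := congrFun hb j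
  rw [Pi.single_eq_same, Pi.zero_apply] at hb1
  exact one_ne_zero hb1

end PCL

end
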