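import Mathlib

/-!
# Descent: vanishing polynomials with few variables
-/

open scoped Classical

noncomputable section

namespace PCL

open MvPolynomial

/-- Proof.  If `i ∈ H.vars` there is `α ∈ H.support` with `α i ≠ 0`; the coefficient of `pderiv i H` at
`α - e_i` is `coeff α H * α i ≠ 0` in characteristic zero. -/
theorem DsPd_vars {M : Type} [Field M] [CharZero M] {m : ℕ} {H : MvPolynomial (Fin m) M} {i : Fin m}
    (h : pderiv i H = 0) : i ∉ H.vars := by
  intro hi
  rw [mem_vars_iff_mem_support] at hi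
  obtain ⟨α, hα, hiα⟩ := hi
  have h1 : 1 ≤ α i := Nat.one_le_iff_ne_zero.mpr (Finsupp.mem_support_iff.mp hiα)
  have h2 : α - Finsupp.single i 1 + Finsupp.single i 1 = α := by
    refine tsub_add_cancel_of_le ?_
    rw [Finsupp.single_le_iff]
    exact h1
  have h3 := coeff_pderiv (i := i) H (α - Finsupp.single i 1)
  rw [h, coeff_zero, h2] at h3
  have h4 : (((α - Finsupp.single i 1 : Fin m →₀ ℕ) i : ℕ) : M) + 1 ≠ 0 := Nat.cast_add_one_ne_zero _
  rcases mul_eq_zero.mp h3.symm with h5 | h5
  · exact mem_support_iff.mp hα h5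
  · exact h4 h5

/-- Proof.  Every monomial of `pderiv i H` is `α - e_i` with `α ∈ H.support`, `α i ≠ 0`. -/
theorem DsPd_deg {M : Type} [Field M] {m : ℕ} {H : MvPolynomial (Fin m) M} {i : Fin m}
    (h : pderiv i H ≠ 0) :
    (pderiv i H).totalDegree < H.totalDegree ∧ (pderiv i H).vars ⊆ H.vars := by
  have key : ∀ β ∈ (pderiv i H).support, β + Finsupp.single i 1 ∈ H.support := by
    intro β hβ
    rw [mem_support_iff] at hβ ⊢
    intro h0
    rw [coeff_pderiv, h0, zero_mul] at hβ
    exact hβ rfl
  have key2 : ∀ β ∈ (pderiv i H).support, (β.sum fun _ e => e) < H.totalDegree := by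
    intro β hβ
    have h1 := le_totalDegree (key β hβ)
    rw [Finsupp.sum_add_index' (fun _ => rfl) (fun _ _ _ => rfl),
      Finsupp.sum_single_index rfl] at h1
    omega
  refine ⟨?_, ?_⟩
  · obtain ⟨β, hβ⟩ : (pderiv i H).support.Nonempty := by
      rw [Finset.nonempty_iff_ne_empty]
      intro h0
      exact h (support_eq_empty.mp h0)
    have hpos : 0 < H.totalDegree := lt_of_le_of_lt (Nat.zero_le _) (key2 β hβ)
    unfold totalDegree
    rw [Finset.sup_lt_iff (by exact hpos)]
    exact key2
  · intro j hj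
    rw [mem_vars_iff_mem_support] at hj ⊢
    obtain ⟨β, hβ, hjβ⟩ := hj
    refine ⟨_, key β hβ, ?_⟩
    rw [Finsupp.mem_support_iff] at hjβ ⊢
    rw [Finsupp.add_apply]
    omega

/-- If for every set `J` of `d + 1` coordinates some nonzero polynomial in the variables of `J` vanishes
on `Z` then there are a set `J` of at most `d` coordinates and, for all `i` not in `J`, a polynomial
`H` in the variables of `J` and `i` which vanishes on `Z` such that `∂H/∂X_i` does not vanish at some
point of `Z`.

Proof.  Let `J` be maximal such that every polynomial with variables in `J` which vanishes on `Z` is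
zero (`J = ∅` has this property: a polynomial without variables is a constant,
`MvPolynomial.vars_eq_empty_iff` or `MvPolynomial.vars` and `totalDegree`, and `Z` is not empty;
`Finset.exists_maximal` or induction on the complement).
`J.card ≤ d`: otherwise `J` contains a set with `d + 1` elements (`Finset.exists_subset_card_eq`).
For `i ∉ J` there is a nonzero `H` with variables in `insert i J` vanishing on `Z`; take one with the smallest
`totalDegree` (`Nat.find` or well-founded minimum).  `pderiv i H ≠ 0`: otherwise `i ∉ H.vars`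
(`DsPd_vars`), the variables are in `J` and `H = 0`.  By `DsPd_deg` and minimality `pderiv i H` does not
vanish on `Z`. -/
theorem exists_sep {M : Type} [Field M] [CharZero M] {m d : ℕ} (Z : Set (Fin m → M))
    (hZ : Z.Nonempty)
    (h : ∀ J : Finset (Fin m), J.card = d + 1 →
      ∃ H : MvPolynomial (Fin m) M, H ≠ 0 ∧ H.vars ⊆ J ∧ ∀ x ∈ Z, eval x H = 0) :
    ∃ J : Finset (Fin m), J.card ≤ d ∧ ∀ i, i ∉ J →
      ∃ (H : MvPolynomial (Fin m) M) (x : Fin m → M), x ∈ Z ∧ H.vars ⊆ insert i J ∧
        (∀ y ∈ Z, eval y H = 0) ∧ eval x (pderiv i H) ≠ 0 := by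
  set P : Finset (Fin m) → Prop := fun J => ∀ H : MvPolynomial (Fin m) M, H.vars ⊆ J →
    (∀ x ∈ Z, eval x H = 0) → H = 0 with hP
  have hP0 : P ∅ := by
    intro H hH hx
    obtain ⟨x, hxZ⟩ := hZ
    have h1 := vars_eq_empty_iff_eq_C.mp (Finset.subset_empty.mp hH)
    have h2 := hx x hxZ
    rw [h1, eval_C] at h2
    rw [h1, h2, C_0]
  obtain ⟨J, hJ⟩ := Set.Finite.exists_maximal (Set.toFinite {J | P J}) ⟨∅, hP0⟩
  have hPJ : P J := hJ.1
  refine ⟨J, ?_, ?_⟩
  · by_contra hcard
    obtain ⟨t, htJ, ht⟩ := Finset.exists_subset_card_eq (n := d + 1) (s := J) (by omega)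
    obtain ⟨H, hH0, hHt, hHZ⟩ := h t ht
    exact hH0 (hPJ H (hHt.trans htJ) hHZ)
  · intro i hi
    have hnP : ¬ P (insert i J) := by
      intro hPi
      have h1 : insert i J ≤ J := hJ.2 hPi (Finset.subset_insert i J)
      exact hi (h1 (Finset.mem_insert_self i J))
    have hex : ∃ n : ℕ, ∃ H : MvPolynomial (Fin m) M, H ≠ 0 ∧ H.vars ⊆ insert i J ∧
        (∀ x ∈ Z, eval x H = 0) ∧ H.totalDegree = n := by
      by_contra hcon
      refine hnP fun H hH hx => ?_
      by_contra hH0
      exact hcon ⟨_, H, hH0, hH, hx, rfl⟩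
    obtain ⟨H, hH0, hHv, hHZ, hHn⟩ := Nat.find_spec hex
    have hp : pderiv i H ≠ 0 := by
      intro hp
      have h1 := DsPd_vars hp
      refine hH0 (hPJ H (fun j hj => ?_) hHZ)
      rcases Finset.mem_insert.mp (hHv hj) with h2 | h2
      · exact absurd (h2 ▸ hj) h1
      · exact h2
    obtain ⟨hdeg, hvars⟩ := DsPd_deg hp
    have hmin := Nat.find_min hex (m := (pderiv i H).totalDegree) (by rw [← hHn]; exact hdeg)
    by_contra hcon
    refine hmin ⟨pderiv i H, hp, hvars.trans hHv, fun x hx => ?_, rfl⟩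
    by_contra hx0
    exact hcon ⟨H, x, hx, hHv, hHZ, hx0⟩

end PCL

end
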