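import Mathlib

/-!
# Descent: the span of vectors with a triangular shape
-/

open scoped Classical

noncomputable section

namespace PCL

/-- Vectors `κ i`, `i ∉ J`, supported in `insert i J` with nonzero `i`-th coordinate are independent:
their span has dimension at least `m - J.card`.

Proof.  They are linearly independent: for `i₀ ∉ J` the `i₀`-th coordinate of `∑ i, c i • κ i` is
`c i₀ * κ i₀ i₀`.  `finrank_span_eq_card`. -/
theorem DsPd_span {M : Type} [Field M] {m : ℕ} (J : Finset (Fin m))
    (κ : {i : Fin m // i ∉ J} → Fin m → M) (h0 : ∀ i j, j ∉ insert i.1 J → κ i j = 0)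
    (h1 : ∀ i, κ i i.1 ≠ 0) :
    Module.finrank M (Submodule.span M (Set.range κ)) = m - J.card := by
  have hli : LinearIndependent M κ := by
    rw [Fintype.linearIndependent_iff]
    intro c hc i₀
    have h2 := congrFun hc i₀.1
    rw [Finset.sum_apply, Pi.zero_apply, Finset.sum_eq_single i₀] at h2
    · rw [Pi.smul_apply, smul_eq_mul] at h2
      exact (mul_eq_zero.mp h2).resolve_right (h1 i₀)
    · intro i _ hi
      rw [Pi.smul_apply, smul_eq_mul, h0 i i₀.1, mul_zero]
      intro h3
      rcases Finset.mem_insert.mp h3 with h4 | h4
      · exact hi (Subtype.ext h4.symm)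
      · exact i₀.2 h4
    · intro h3
      exact absurd (Finset.mem_univ _) h3
  rw [finrank_span_eq_card hli, Fintype.card_subtype_compl, Fintype.card_fin, Fintype.card_coe]

end PCL

end
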