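import Pool.Agent.W_52423f_h70.TrB

/-!
# Descent: the stabiliser of a point
-/

open scoped Classical

noncomputable section

namespace PCL

variable {K : Type} [Field K] {W : WeierstrassCurve K}

/-- The group of the `v` such that some automorphism moves `w` by `γ v`. -/
def stabV {n m : ℕ} (γ : (Fin n → ℤ) →+ (Fin m → Pt W K)) {Ω : Type} [Field Ω] [Algebra K Ω]
    (w : Fin m → Pt W Ω) : AddSubgroup (Fin n → ℤ) where
  carrier := {v | ∃ τ : Ω ≃ₐ[K] Ω, ∀ j, mp (τ : Ω →ₐ[K] Ω) (w j) = w j + emb Ω (γ v j)}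
  zero_mem' := by
    refine ⟨AlgEquiv.refl, fun j => ?_⟩
    have h1 : ((AlgEquiv.refl : Ω ≃ₐ[K] Ω) : Ω →ₐ[K] Ω) = AlgHom.id K Ω := rfl
    rw [h1, mp_self, map_zero, Pi.zero_apply, map_zero, add_zero]
  add_mem' := by
    rintro v v' ⟨τ, hτ⟩ ⟨τ', hτ'⟩
    refine ⟨τ.trans τ', fun j => ?_⟩
    have h1 : ((τ.trans τ' : Ω ≃ₐ[K] Ω) : Ω →ₐ[K] Ω) =
        ((τ' : Ω →ₐ[K] Ω)).comp (τ : Ω →ₐ[K] Ω) := rfl
    rw [h1, ← mp_comp, hτ j, map_add, hτ' j, mp_emb, map_add, Pi.add_apply, map_add]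
    abel
  neg_mem' := by
    rintro v ⟨τ, hτ⟩
    refine ⟨τ.symm, fun j => ?_⟩
    have h2 : ((τ.symm : Ω →ₐ[K] Ω)).comp (τ : Ω →ₐ[K] Ω) = AlgHom.id K Ω := by
      ext x
      simp
    have h3 := congrArg (mp (τ.symm : Ω →ₐ[K] Ω)) (hτ j)
    rw [mp_comp, h2, mp_self, map_add, mp_emb] at h3
    rw [map_neg, Pi.neg_apply, map_neg, ← sub_eq_add_neg, eq_sub_iff_add_eq]
    exact h3.symm

theorem mem_stabV {n m : ℕ} {γ : (Fin n → ℤ) →+ (Fin m → Pt W K)} {Ω : Type} [Field Ω]
    [Algebra K Ω] {w : Fin m → Pt W Ω} {v : Fin n → ℤ} :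
    v ∈ stabV γ w ↔ ∃ τ : Ω ≃ₐ[K] Ω, ∀ j, mp (τ : Ω →ₐ[K] Ω) (w j) = w j + emb Ω (γ v j) :=
  Iff.rfl

theorem DsStab_alg {Ω : Type} [Field Ω] [Algebra K Ω] (S T : Set Ω)
    (hT : ∀ z ∈ T, IsIntegral (IntermediateField.adjoin K S) z)
    (halg : Algebra.IsAlgebraic (IntermediateField.adjoin K (S ∪ T)) Ω) :
    Algebra.IsAlgebraic (Algebra.adjoin K S) Ω := by
  have h1 := IntermediateField.isAlgebraic_adjoin hT
  have hres : (IntermediateField.adjoin (IntermediateField.adjoin K S) T).restrictScalars K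
      = IntermediateField.adjoin K (S ∪ T) := IntermediateField.adjoin_adjoin_left K _ _
  have h2 : Algebra.IsAlgebraic
      (IntermediateField.adjoin (IntermediateField.adjoin K S) T) Ω := by
    rw [← hres] at halg
    exact halg
  have h3 : Algebra.IsAlgebraic (IntermediateField.adjoin K S) Ω :=
    Algebra.IsAlgebraic.trans _ (IntermediateField.adjoin (IntermediateField.adjoin K S) T) _
  open scoped IntermediateField.algebraAdjoinAdjoin in
  exact (IsFractionRing.comap_isAlgebraic_iff (A := Algebra.adjoin K S)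
    (K := IntermediateField.adjoin K S) (C := Ω)).mpr h3

/-- Not more coordinates than the transcendence degree are independent.

Proof.  `Ω` is algebraic over `fieldOf w J`, which is generated over `L = K(x(w_j), j ∈ J)` by elements
algebraic over `L` (`TrB_y`), so `Ω` is algebraic over `L` (for instance: `fieldOf w J` is contained in the
relative algebraic closure of `L` in `Ω`, which is algebraically closed in `Ω`), and over the ring
`K[x(w_j), j ∈ J]` (`IsFractionRing`, or `IntermediateField.algebraAdjoin..`); so the `x(w_j)`, `j ∈ J`,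
are a transcendence basis (`isTranscendenceBasis_iff_algebraicIndependent_isAlgebraic`) and the
transcendence degree is `J.card` (`IsTranscendenceBasis.cardinalMk_eq_trdeg`); an independent family
has at most so many elements (`AlgebraicIndependent.cardinalMk_le_trdeg`). -/
theorem not_hasIndep {Ω : Type} [Field Ω] [Algebra K Ω] {m : ℕ} (w : Fin m → Pt W Ω)
    (J J' : Finset (Fin m)) (hJ : HasIndep w J) (halg : Algebra.IsAlgebraic (fieldOf w J) Ω)
    (hcard : J.card < J'.card) : ¬ HasIndep w J' := by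
  intro hJ'
  have hr : Set.range (fun j : J => xc (w j)) = (fun j => xc (w j)) '' (J : Set (Fin m)) := by
    ext z
    constructor
    · rintro ⟨j, rfl⟩
      exact ⟨j, j.2, rfl⟩
    · rintro ⟨j, hj, rfl⟩
      exact ⟨⟨j, hj⟩, rfl⟩
  have h1 : Algebra.IsAlgebraic
      (Algebra.adjoin K (Set.range (fun j : J => xc (w j)))) Ω := by
    rw [hr]
    refine DsStab_alg _ ((fun j => yc (w j)) '' (J : Set (Fin m))) ?_ halg
    rintro z ⟨j, hj, rfl⟩
    exact TrB_y _ _ (IntermediateField.subset_adjoin _ _ ⟨j, hj, rfl⟩)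
  have hb : IsTranscendenceBasis K (fun j : J => xc (w j)) :=
    isTranscendenceBasis_iff_algebraicIndependent_isAlgebraic.mpr ⟨hJ, h1⟩
  have h2 := hb.cardinalMk_eq_trdeg
  have h3 := AlgebraicIndependent.cardinalMk_le_trdeg hJ'
  rw [← h2, Cardinal.mk_coe_finset, Cardinal.mk_coe_finset, Nat.cast_le] at h3
  exact absurd h3 (not_le.2 hcard)

end PCL

end
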