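import Pool.Agent.W_52423f_h99.DsRel
import Pool.Agent.W_52423f_h99.DsPd
import Pool.Agent.W_52423f_h99.DsSp
import Pool.Agent.W_52423f_h99.DsBox
import Pool.Agent.W_52423f_h99.DsNum
import Pool.Agent.W_52423f_h99.DsStab
import Pool.Agent.W_52423f_h99.DsHne
import Pool.Agent.W_52423f_h70.DsC
import Pool.Agent.W_52423f_h70.CaA

/-!
# Descent: from a point with a large stabiliser to the zero estimate
-/

open scoped Classical

noncomputable section

namespace PCL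

open Pool.Agent.PTwist WeierstrassCurve WeierstrassCurve.Affine Matrix

variable {p : ℕ} [Fact p.Prime] {K : Type} [NontriviallyNormedField K] [CompleteSpace K]
  [IsUltrametricDist K] [NormedAlgebra ℚ_[p] K] {F M : Type} [Field F] [Field M] [CharZero M]
  [Algebra F M] [FiniteDimensional F M] [IsGalois F M]
  {W : WeierstrassCurve F} [(W⁄M).IsElliptic] {ι : (F →+* K) → (M →+* K)}
  {r₀ : (F →+* K) → ℝ} {n m : ℕ} {u : Fin m → Fin n → (W⁄M).toAffine.Point}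
  {z : (F →+* K) → Fin m → Fin n → K} {ρ : (M ≃ₐ[F] M) →* GL (Fin n) ℤ}

/-- the values of `γ` -/
def IsGam (u : Fin m → Fin n → (W⁄M).toAffine.Point)
    (γ : (Fin n → ℤ) →+ (Fin m → Pt (W⁄M) M)) : Prop :=
  ∀ s j, γ s j = (show Pt (W⁄M) M from (∑ i, s i • u j i : (W⁄M).toAffine.Point))

theorem IsGam.iX {γ : (Fin n → ℤ) →+ (Fin m → Pt (W⁄M) M)} (hγ : IsGam u γ)
    (v : Fin n → ℤ) (j : Fin m) :
    (xc (γ v j))⁻¹ = Pool.Agent.PTwist.iX (W⁄M) (∑ i, v i • u j i) := by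
  rw [← PCL.iX_eq, hγ v j]
  rfl

/-- The relations: if the stabiliser `V` of `w` is not zero then there is a subspace `U` of `M ^ m` of
dimension at least `m - J.card` in relation with all elements of `V`. -/
theorem exists_U (hρ : Irr ρ) (h : LogData p W ι r₀ u z) (hu : ∀ j, IsTw W ρ (u j))
    (hind : ∀ b : Fin m → F, (∀ a i, ∑ j, a (b j) * z a j i = 0) → b = 0) (hm : 0 < m)
    {γ : (Fin n → ℤ) →+ (Fin m → Pt (W⁄M) M)} (hγ : IsGam u γ) [CharZero K]
    {Ω : Type} [Field Ω] [Algebra M Ω] (w : Fin m → Pt (W⁄M) Ω) (J : Finset (Fin m))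
    (hJ : HasIndep w J) (halg : Algebra.IsAlgebraic (fieldOf w J) Ω)
    {v₁ : Fin n → ℤ} (hv₁ : v₁ ∈ stabV γ w) (hv₁0 : v₁ ≠ 0) :
    ∃ U : Submodule M (Fin m → M), m - J.card ≤ Module.finrank M U ∧
      ∀ v ∈ stabV γ w, (fun i => (v i : ℚ)) ∈ annR ρ ι z U := by
  -- an embedding
  obtain ⟨a₀⟩ : Nonempty (F →+* K) := by
    by_contra hno
    have h1 := hind (fun _ => 1) (fun a => absurd ⟨a⟩ hno)
    exact one_ne_zero (congrFun h1 ⟨0, hm⟩)
  have hne := fun v hv j => h.hne hρ hu hind v hv j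
  have hXV := fun v hv j => h.ne_zero hu a₀ v j (hne v hv j)
  set Z : Set (Fin m → M) :=
    {x | ∃ v ∈ stabV γ w, v ≠ 0 ∧ x = fun j => Pool.Agent.PTwist.iX (W⁄M) (∑ i, v i • u j i)} with hZ
  have hZne : Z.Nonempty := ⟨_, v₁, hv₁, hv₁0, rfl⟩
  have hE : (WeierstrassCurve.baseChange W M).IsElliptic := inferInstance
  obtain ⟨J₁, hJ₁, hsep⟩ := exists_sep (d := J.card) Z hZne (by
    intro J' hJ'
    obtain ⟨H, hH0, hHv, hH⟩ := dep_of_dep w J'
      (not_hasIndep w J J' hJ halg (by omega))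
      {κ | ∃ v ∈ stabV γ w, v ≠ 0 ∧ κ = γ v} (by
        rintro κ ⟨v, hv, hv0, rfl⟩
        refine ⟨fun j => ?_, hv⟩
        have h1 : xc (γ v j) ≠ 0 := by
          intro h0
          have h2 := hγ.iX v j
          rw [h0, _root_.inv_zero] at h2
          exact (hXV v hv0 j).1 h2.symm
        refine ⟨fun h0 => h1 ?_, h1⟩
        rw [h0]
        rfl)
    refine ⟨H, hH0, hHv, ?_⟩
    rintro x ⟨v, hv, hv0, rfl⟩
    have h1 := hH (γ v) ⟨v, hv, hv0, rfl⟩
    rw [← h1]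
    congr 2
    funext j
    exact (hγ.iX v j).symm)
  have hsep' : ∀ i : {i : Fin m // i ∉ J₁}, ∃ (H : MvPolynomial (Fin m) M) (v₀ : Fin n → ℤ),
      v₀ ∈ stabV γ w ∧ v₀ ≠ 0 ∧ H.vars ⊆ insert i.1 J₁ ∧
      (∀ v ∈ stabV γ w, v ≠ 0 →
        MvPolynomial.eval (fun j => Pool.Agent.PTwist.iX (W⁄M) (∑ i, v i • u j i)) H = 0) ∧
      MvPolynomial.eval (fun j => Pool.Agent.PTwist.iX (W⁄M) (∑ i, v₀ i • u j i))
        (MvPolynomial.pderiv i.1 H) ≠ 0 := by
    rintro ⟨i, hi⟩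
    obtain ⟨H, x, ⟨v₀, hv₀, hv₀0, rfl⟩, hvars, hvan, hder⟩ := hsep i hi
    exact ⟨H, v₀, hv₀, hv₀0, hvars, fun v hv hv0 => hvan _ ⟨v, hv, hv0, rfl⟩, hder⟩
  choose H v₀ hv₀ hv₀0 hvars hvan hder using hsep'
  set κ : {i : Fin m // i ∉ J₁} → Fin m → M := fun i j =>
    MvPolynomial.eval (fun j => Pool.Agent.PTwist.iX (W⁄M) (∑ l, v₀ i l • u j l))
      (MvPolynomial.pderiv j (H i)) * iV (W⁄M) (∑ l, v₀ i l • u j l) with hκ
  refine ⟨Submodule.span M (Set.range κ), ?_, ?_⟩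
  · have h1 := DsPd_span J₁ κ (by
      intro i j hj
      have h2 : j ∉ (H i).vars := fun h3 => hj (hvars i h3)
      simp only [hκ]
      rw [MvPolynomial.pderiv_eq_zero_of_notMem_vars h2, map_zero, zero_mul]) (by
      intro i
      simp only [hκ]
      exact mul_ne_zero (hder i) (hXV (v₀ i) (hv₀0 i) i.1).2)
    rw [h1]
    omega
  · intro v hv
    rw [mem_annR_span]
    rintro _ ⟨i, rfl⟩
    exact h.rel hu (stabV γ w) (H i) (hvan i) (hv₀ i) (hv₀0 i) hv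

/-- The zero estimate from the stabiliser theorem. -/
theorem ze_core (hρ : Irr ρ) (h : LogData p W ι r₀ u z) (hu : ∀ j, IsTw W ρ (u j))
    (hind : ∀ b : Fin m → F, (∀ a i, ∑ j, a (b j) * z a j i = 0) → b = 0)
    {γ : (Fin n → ℤ) →+ (Fin m → Pt (W⁄M) M)} (hγ : IsGam u γ)
    {Ω : Type} [Field Ω] [Algebra M Ω] (w : Fin m → Pt (W⁄M) Ω) (J : Finset (Fin m))
    (hJu : J ≠ Finset.univ) (hJ : HasIndep w J) (halg : Algebra.IsAlgebraic (fieldOf w J) Ω)
    {c S D : ℕ} (hD : 1 ≤ D)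
    (hcard : (2 * S + 1) ^ n ≤ c * D ^ (m - J.card) *
        ((box n (2 * S)).filter fun v => ∃ τ : Ω ≃ₐ[M] Ω,
          ∀ j, mp (τ : Ω →ₐ[M] Ω) (w j) = w j + emb Ω (γ v j)).card) :
    (2 * S + 1) ^ n ≤ (c * 2 ^ n) ^ m * D ^ m := by
  have hK0 : CharZero K := Loc_charZero p K
  have hJm : J.card < m := by
    have h1 := Finset.card_lt_card (Finset.ssubset_univ_iff.2 hJu)
    rwa [Finset.card_univ, Fintype.card_fin] at h1
  by_cases hV : ∃ v₁ ∈ stabV γ w, v₁ ≠ 0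
  · obtain ⟨v₁, hv₁, hv₁0⟩ := hV
    obtain ⟨U, hU1, hU2⟩ := exists_U hρ h hu hind (by omega) hγ w J hJ halg hv₁ hv₁0
    have h1 := slope_annR hρ h.comp hind U
    refine DsBox_num (d := J.card) (e := Module.finrank ℚ (annR ρ ι z U)) hJm hD ?_ ?_
    · exact (Nat.add_le_add_right (Nat.mul_le_mul_left n hU1) _).trans h1
    · refine hcard.trans (Nat.mul_le_mul_left _ ?_)
      refine (Finset.card_le_card ?_).trans (card_box_sub (2 * S) (annR ρ ι z U))
      intro v hv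
      rw [Finset.mem_filter] at hv ⊢
      exact ⟨hv.1, hU2 v hv.2⟩
  · push Not at hV
    refine DsBox_num (d := J.card) (e := 0) hJm hD ?_ ?_
    · rw [mul_zero, add_zero, mul_comm m n]
      exact Nat.mul_le_mul_left n (Nat.sub_le _ _)
    · refine hcard.trans (Nat.mul_le_mul_left _ ?_)
      rw [pow_zero, Finset.card_le_one]
      intro v hv v' hv'
      rw [Finset.mem_filter] at hv hv'
      rw [hV v hv.2, hV v' hv'.2]

end PCL

end
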