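import Pool.Agent.W_52423f_h30.Tw
import Pool.Agent.W_52423f_h30.RelA

/-!
# Descent: definitions

The relations `Rl ρ ι z κ s` between a vector `κ` of `M ^ m` and a vector `s` of `ℚ ^ n`: for all
embeddings of `M` in `K` the combination with coefficients `κ_j` of the logarithms of the points
`sum_i s_i u_ji`, `j = 1, ..., m`, is zero.
-/

open scoped Classical

noncomputable section

namespace PCL

open Pool.Agent.PTwist WeierstrassCurve WeierstrassCurve.Affine Matrix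

/-- Logarithms `z a j i` of the points `u j i` at the embeddings `ι a` of `M`, one for every embedding
`a` of `F`. -/
structure LogData (p : ℕ) [Fact p.Prime] {K : Type} [NontriviallyNormedField K] [CompleteSpace K]
    [IsUltrametricDist K] [NormedAlgebra ℚ_[p] K] {F M : Type} [Field F] [Field M] [Algebra F M]
    (W : WeierstrassCurve F) [(W⁄M).IsElliptic] (ι : (F →+* K) → (M →+* K))
    (r₀ : (F →+* K) → ℝ) {n m : ℕ} (u : Fin m → Fin n → (W⁄M).toAffine.Point)
    (z : (F →+* K) → Fin m → Fin n → K) : Prop where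
  comp : ∀ a, (ι a).comp (algebraMap F M) = a
  lc : ∀ a, LC p ((W⁄M).map (ι a)).b₂ ((W⁄M).map (ι a)).b₄ ((W⁄M).map (ι a)).b₆ (r₀ a)
  ball : ∀ a j i, ‖z a j i‖ ≤ rad (r₀ a)
  pts : ∀ a j i, expPt ((W⁄M).map (ι a)) (z a j i) = pmap (W⁄M) (ι a) (u j i)

section

variable {F M : Type} [Field F] [Field M] [Algebra F M] {n m : ℕ}

/-- The action `s ↦ s ρ(g)⁻¹` on row vectors. -/
def act (ρ : (M ≃ₐ[F] M) →* GL (Fin n) ℤ) (g : M ≃ₐ[F] M) (s : Fin n → ℚ) : Fin n → ℚ :=
  s ᵥ* (((ρ g)⁻¹ : GL (Fin n) ℤ).val.map (Int.cast : ℤ → ℚ))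

/-- The relation between `κ` and `s`: the embedding `(ι a) ∘ g` of `M` sends the point
`sum_i s_i u_ji` to the point with the logarithm `sum_i (s ρ(g)⁻¹)_i z_aji`. -/
def Rl {K : Type} [Field K] (ρ : (M ≃ₐ[F] M) →* GL (Fin n) ℤ) (ι : (F →+* K) → (M →+* K))
    (z : (F →+* K) → Fin m → Fin n → K) (κ : Fin m → M) (s : Fin n → ℚ) : Prop :=
  ∀ (a : F →+* K) (g : M ≃ₐ[F] M),
    ∑ j, ι a (g (κ j)) * ∑ i, ((act ρ g s i : ℚ) : K) * z a j i = 0

end

end PCL

end
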