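import Pool.Agent.W_52423f_h99.DsAnn

/-!
# Descent: the logarithms at all embeddings
-/

open scoped Classical

noncomputable section

namespace PCL

open Pool.Agent.PTwist WeierstrassCurve WeierstrassCurve.Affine Matrix PowerSeries

variable {p : ℕ} [Fact p.Prime] {K : Type} [NontriviallyNormedField K] [CompleteSpace K]
  [IsUltrametricDist K] [NormedAlgebra ℚ_[p] K] {F M : Type} [Field F] [Field M] [Algebra F M]
  {W : WeierstrassCurve F} [(W⁄M).IsElliptic] {ι : (F →+* K) → (M →+* K)}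
  {r₀ : (F →+* K) → ℝ} {n m : ℕ} {u : Fin m → Fin n → (W⁄M).toAffine.Point}
  {z : (F →+* K) → Fin m → Fin n → K} {ρ : (M ≃ₐ[F] M) →* GL (Fin n) ℤ}

/-- The logarithm at the embedding `(ι a) ∘ g` of the point `∑ i, v i • u j i`. -/
def lg (ρ : (M ≃ₐ[F] M) →* GL (Fin n) ℤ) (z : (F →+* K) → Fin m → Fin n → K) (a : F →+* K)
    (g : M ≃ₐ[F] M) (v : Fin n → ℤ) (j : Fin m) : K :=
  ∑ i, (((v ᵥ* ((ρ g)⁻¹ : GL (Fin n) ℤ).val) i : ℤ) : K) * z a j i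

/-- Proof.  `Matrix.add_vecMul`, `Matrix.smul_vecMul`, casts. -/
theorem lg_add (a : F →+* K) (g : M ≃ₐ[F] M) (v w : Fin n → ℤ) (k : ℤ) (j : Fin m) :
    lg ρ z a g (v + k • w) j = lg ρ z a g v j + (k : K) * lg ρ z a g w j := by
  unfold lg
  rw [Finset.mul_sum, ← Finset.sum_add_distrib]
  refine Finset.sum_congr rfl fun i _ => ?_
  rw [Matrix.add_vecMul, Matrix.smul_vecMul, Pi.add_apply, Pi.smul_apply, smul_eq_mul,
    Int.cast_add, Int.cast_mul]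
  ring

/-- Proof.  `act_cast` and the definitions. -/
theorem Rl_of_lg [CharZero K] {κ : Fin m → M} {v : Fin n → ℤ}
    (h : ∀ a g, ∑ j, ι a (g (κ j)) * lg ρ z a g v j = 0) :
    Rl ρ ι z κ (fun i => (v i : ℚ)) := by
  intro a g
  rw [act_cast]
  have h1 := h a g
  unfold lg at h1
  simp only [Rat.cast_intCast]
  exact h1

theorem LogData.norm_lg (h : LogData p W ι r₀ u z) (a : F →+* K) (g : M ≃ₐ[F] M)
    (v : Fin n → ℤ) (j : Fin m) : ‖lg ρ z a g v j‖ ≤ rad (r₀ a) :=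
  RelOf_norm (h.ball a j) p (h.lc a).rad_pos.le _

/-- Proof.  As in `relOf` (`RelOf.lean`): `iX_map`, `IsTw.map_sum`, `RelOf_iX`. -/
theorem LogData.iX_lg (h : LogData p W ι r₀ u z) (hu : ∀ j, IsTw W ρ (u j)) (a : F →+* K)
    (g : M ≃ₐ[F] M) (v : Fin n → ℤ) (j : Fin m) :
    ι a (g (iX (W⁄M) (∑ i, v i • u j i))) = ev (fV ((W⁄M).map (ι a))) (lg ρ z a g v j) := by
  have h1 := iX_map W (g : M →ₐ[F] M) (∑ i, v i • u j i)
  rw [(hu j).map_sum g v] at h1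
  have h2 : g (iX (W⁄M) (∑ i, v i • u j i)) =
      iX (W⁄M) (∑ i, (v ᵥ* ((ρ g)⁻¹ : GL (Fin n) ℤ).val) i • u j i) := h1.symm
  rw [h2]
  exact RelOf_iX (W⁄M) (ι a) (h.lc a) (h.ball a j) (h.pts a j) _

/-- Proof.  As in `relOf` (`RelOf.lean`): `iV_map`, `IsTw.map_sum`, `RelOf_iV`. -/
theorem LogData.iV_lg (h : LogData p W ι r₀ u z) (hu : ∀ j, IsTw W ρ (u j)) (a : F →+* K)
    (g : M ≃ₐ[F] M) (v : Fin n → ℤ) (j : Fin m) :
    ι a (g (iV (W⁄M) (∑ i, v i • u j i))) =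
      ev (derivative K (fV ((W⁄M).map (ι a)))) (lg ρ z a g v j) := by
  have h1 := iV_map W (g : M →ₐ[F] M) (∑ i, v i • u j i)
  rw [(hu j).map_sum g v] at h1
  have h2 : g (iV (W⁄M) (∑ i, v i • u j i)) =
      iV (W⁄M) (∑ i, (v ᵥ* ((ρ g)⁻¹ : GL (Fin n) ℤ).val) i • u j i) := h1.symm
  rw [h2]
  exact RelOf_iV (W⁄M) (ι a) (h.lc a) (h.ball a j) (h.pts a j) _

/-- Proof.  If `lg = 0` then `(ι a ∘ g)` of the point `P = ∑ i, v i • u j i` is the origin: by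
`IsTw.map_sum` the image `g P` is `∑ i, (v ᵥ* ρ(g)⁻¹) i • u j i`, and `RelA_key` with `expPt_zero` and
`pmap_injective` gives `g P = 0`, so `P = 0` (`Point.map_injective`). -/
theorem LogData.lg_ne_zero (h : LogData p W ι r₀ u z) (hu : ∀ j, IsTw W ρ (u j)) (a : F →+* K)
    (g : M ≃ₐ[F] M) (v : Fin n → ℤ) (j : Fin m) (hv : ∑ i, v i • u j i ≠ 0) :
    lg ρ z a g v j ≠ 0 := by
  intro h0
  apply hv
  have h1 := RelA_key (W⁄M) (ι a) (h.lc a) (h.ball a j) (h.pts a j)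
    (v ᵥ* ((ρ g)⁻¹ : GL (Fin n) ℤ).val)
  have h2 : ∑ i, (((v ᵥ* ((ρ g)⁻¹ : GL (Fin n) ℤ).val) i : ℤ) : K) * z a j i = 0 := h0
  rw [h2, expPt_zero] at h1
  have h3 : pmap (W⁄M) (ι a) (∑ i, (v ᵥ* ((ρ g)⁻¹ : GL (Fin n) ℤ).val) i • u j i) =
      pmap (W⁄M) (ι a) 0 := by
    rw [← h1, pmap_zero]
  have h4 := pmap_injective (W⁄M) (ι a) h3
  rw [← (hu j).map_sum g v] at h4
  have h5 : Point.map (g : M →ₐ[F] M) (∑ i, v i • u j i) =
      Point.map (g : M →ₐ[F] M) (0 : (W⁄M).toAffine.Point) := by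
    rw [h4, map_zero]
  exact Point.map_injective _ h5

/-- The functions `iX`, `iV` are not zero at `P` if `P` is the sum `∑ i, v i • u j i ≠ 0` (`LC.norm_ev`, `LC.norm_ev'`, `LogData.lg_ne_zero`,
with `g = 1`, `map_ne_zero`; `‖(2 : K)‖ ≠ 0` as `K` has characteristic zero, `Exp_two_ne`). -/
theorem LogData.ne_zero (h : LogData p W ι r₀ u z) (hu : ∀ j, IsTw W ρ (u j)) (a : F →+* K)
    (v : Fin n → ℤ) (j : Fin m) (hv : ∑ i, v i • u j i ≠ 0) :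
    iX (W⁄M) (∑ i, v i • u j i) ≠ 0 ∧ iV (W⁄M) (∑ i, v i • u j i) ≠ 0 := by
  have hl := h.lg_ne_zero hu a 1 v j hv
  have hn := h.norm_lg (ρ := ρ) a 1 v j
  have hl' : 0 < ‖lg ρ z a 1 v j‖ := norm_pos_iff.2 hl
  refine ⟨?_, ?_⟩
  · intro h0
    have h1 := h.iX_lg hu a 1 v j
    rw [h0, map_zero, map_zero] at h1
    have h2 := (h.lc a).norm_ev hn
    rw [show fe ((W⁄M).map (ι a)).b₂ ((W⁄M).map (ι a)).b₄ ((W⁄M).map (ι a)).b₆ =
      fV ((W⁄M).map (ι a)) from rfl, ← h1, norm_zero] at h2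
    have h3 : 0 < ‖lg ρ z a 1 v j‖ ^ 2 := by positivity
    linarith
  · intro h0
    have h1 := h.iV_lg hu a 1 v j
    rw [h0, map_zero, map_zero] at h1
    have h2 := (h.lc a).norm_ev' hn
    rw [show fe ((W⁄M).map (ι a)).b₂ ((W⁄M).map (ι a)).b₄ ((W⁄M).map (ι a)).b₆ =
      fV ((W⁄M).map (ι a)) from rfl, ← h1, norm_zero] at h2
    have h3 : 0 < ‖(2 : K)‖ := norm_pos_iff.2 (Exp_two_ne (p := p) K)
    have h4 := mul_pos h3 hl'
    linarith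

end PCL

end
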