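import Pool.Agent.W_52423f_h99.DsZe
import Pool.Agent.W_52423f_h70.CaC
import Pool.Agent.W_52423f_h70.NcMain

/-!
# The descent over the rational numbers
-/

open scoped Classical

noncomputable section

namespace PCL

open Pool.Agent.PTwist WeierstrassCurve WeierstrassCurve.Affine Matrix

/-- Independence over the rational numbers of the logarithms of independent points.

Proof.  Multiply `b` by a common denominator: `N b_j = t_j` integers, `∑ j, t_j z_j i = 0` for all `i`,
so `∑ j, t_j • u j = 0` (`expPt_sum`, `pmap_sum`, `pmap_injective`), `t = 0`. -/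
theorem DsQ_indep {p : ℕ} [Fact p.Prime] {K : Type} [NontriviallyNormedField K] [CompleteSpace K]
    [IsUltrametricDist K] [NormedAlgebra ℚ_[p] K] {M : Type} [Field M] {V : WeierstrassCurve M}
    [V.IsElliptic] {ι : M →+* K} {r₀ : ℝ} {n m : ℕ} {u : Fin m → Fin n → V.toAffine.Point}
    {z : Fin m → Fin n → K} (hLC : LC p (V.map ι).b₂ (V.map ι).b₄ (V.map ι).b₆ r₀)
    (hz : ∀ j i, ‖z j i‖ ≤ rad r₀) (hzu : ∀ j i, expPt (V.map ι) (z j i) = pmap V ι (u j i))
    (hind : ∀ t : Fin m → ℤ, ∑ j, t j • u j = 0 → t = 0) (b : Fin m → ℚ)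
    (hb : ∀ i, ∑ j, (b j : K) * z j i = 0) : b = 0 := by
  have hK0 : CharZero K := Loc_charZero p K
  -- the common denominator
  set N : ℕ := ∏ j, (b j).den with hN
  have hN0 : (N : ℤ) ≠ 0 := by
    rw [hN]
    exact_mod_cast Finset.prod_ne_zero_iff.2 fun j _ => (b j).den_nz
  have hint : ∀ j, ∃ t : ℤ, (t : ℚ) = (N : ℚ) * b j := by
    intro j
    obtain ⟨k, hk⟩ := Finset.dvd_prod_of_mem (fun j => (b j).den) (Finset.mem_univ j)
    refine ⟨k * (b j).num, ?_⟩
    have h1 : ((b j).den : ℚ) * b j = (b j).num := by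
      rw [mul_comm]
      exact Rat.mul_den_eq_num (b j)
    have h2 : (N : ℚ) = ((b j).den : ℚ) * k := by
      rw [hN]
      exact_mod_cast hk
    rw [h2]
    push_cast
    linear_combination (-(k : ℚ)) * h1
  choose t ht using hint
  have h1 : ∀ i, ∑ j, (t j : K) * z j i = 0 := by
    intro i
    have h2 : ∀ j, (t j : K) = (N : K) * (b j : K) := by
      intro j
      have h3 := congrArg (fun q : ℚ => (q : K)) (ht j)
      simp only [Rat.cast_mul, Rat.cast_natCast, Rat.cast_intCast] at h3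
      exact h3
    have h4 : ∑ j, (t j : K) * z j i = (N : K) * ∑ j, (b j : K) * z j i := by
      rw [Finset.mul_sum]
      refine Finset.sum_congr rfl fun j _ => ?_
      rw [h2 j]
      ring
    rw [h4, hb i, mul_zero]
  have h5 : t = 0 := by
    refine hind t ?_
    funext i
    have h6 := RelA_key V ι hLC (P := fun j => u j i) (z := fun j => z j i) (fun j => hz j i)
      (fun j => hzu j i) t
    rw [h1 i, expPt_zero] at h6
    have h7 : ∑ j, t j • u j i = 0 := pmap_injective V ι (h6.symm.trans (pmap_zero V ι).symm)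
    rw [Finset.sum_apply]
    exact h7
  funext j
  have h6 := ht j
  rw [h5] at h6
  have h7 : (N : ℚ) * b j = 0 := by
    rw [← h6]
    simp
  exact (mul_eq_zero.1 h7).resolve_left (by exact_mod_cast hN0)

/-- The descent over the rational numbers. -/
theorem descent_Q {p : ℕ} [Fact p.Prime] {K : Type} [NontriviallyNormedField K] [CompleteSpace K]
    [IsUltrametricDist K] [NormedAlgebra ℚ_[p] K] {M : Type} [Field M] [NumberField M]
    [IsGalois ℚ M] {W : WeierstrassCurve ℚ} [W.IsElliptic] [(W⁄M).IsElliptic]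
    {n m r : ℕ} {ρ : (M ≃ₐ[ℚ] M) →* Matrix.GeneralLinearGroup (Fin n) ℤ} (hρ : Irr ρ)
    (hrm : r < m) {ι : M →+* K} {r₀ : ℝ} {u : Fin m → Fin n → (W⁄M).toAffine.Point}
    {c : Fin m → Fin r → ℤ_[p]} {ζ : Fin r → Fin n → K} (h : ExpData p (W⁄M) ι r₀ u c ζ)
    (hu : ∀ j, IsTw W ρ (u j)) (hind : ∀ t : Fin m → ℤ, ∑ j, t j • u j = 0 → t = 0) :
    m * n ≤ r * (n + 2 * m) := by
  set z : Fin m → Fin n → K := fun j i =>
    ∑ l, algebraMap ℚ_[p] K (c j l : ℚ_[p]) * ζ l i with hz
  have hL : LogData p W (fun _ : ℚ →+* K => ι) (fun _ => r₀) u (fun _ => z) :=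
    { comp := fun a => Subsingleton.elim _ _
      lc := fun _ => h.lc
      ball := fun _ j i => h.norm_le j i
      pts := fun _ j i => h.pts j i }
  have hind' : ∀ b : Fin m → ℚ,
      (∀ (a : ℚ →+* K) (i : Fin n), ∑ j, a (b j) * z j i = 0) → b = 0 := by
    intro b hb
    have hK0 : CharZero K := Loc_charZero p K
    refine DsQ_indep h.lc (fun j i => h.norm_le j i) (fun j i => h.pts j i) hind b fun i => ?_
    have h1 := hb (ι.comp (algebraMap ℚ M)) i
    rw [← h1]
    refine Finset.sum_congr rfl fun j _ => ?_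
    congr 1
    exact (map_ratCast (ι.comp (algebraMap ℚ M)) (b j)).symm.trans (by simp)
  obtain ⟨C₀, hC₀, hBP⟩ := bp_van hrm h (gam u) (fun s j => rfl)
  obtain ⟨c', hZE⟩ := ze_twist hρ hL hu hind' (γ := gam u) (fun s j => rfl)
  have key : n * (m - r) ≤ 2 * r * m := by
    refine Nc_growth (c := c') (C₀ := C₀) fun v hv => ?_
    obtain ⟨P, hP, hdeg, hvan⟩ := hBP v hv
    exact hZE (v ^ (m - r)) (C₀ * v ^ (2 * r)) P
      (Nat.mul_pos hC₀ (Nat.pow_pos hv)) hP hdeg hvan
  obtain ⟨k, rfl⟩ := Nat.exists_eq_add_of_lt hrm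
  have h1 : r + k + 1 - r = k + 1 := by omega
  rw [h1] at key
  nlinarith

end PCL

end
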