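import Pool.Agent.W_52423f_h99.DsLg
import Pool.Agent.W_52423f_h70.DsB
import Pool.Agent.W_52423f_h70.DsP

/-!
# Descent: the relation of a polynomial which vanishes on a subgroup
-/

open scoped Classical

noncomputable section

namespace PCL

open Pool.Agent.PTwist WeierstrassCurve WeierstrassCurve.Affine Matrix PowerSeries

variable {p : ℕ} [Fact p.Prime] {K : Type} [NontriviallyNormedField K] [CompleteSpace K]
  [IsUltrametricDist K] [NormedAlgebra ℚ_[p] K] {F M : Type} [Field F] [Field M] [Algebra F M]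
  {W : WeierstrassCurve F} [(W⁄M).IsElliptic] {ι : (F →+* K) → (M →+* K)}
  {r₀ : (F →+* K) → ℝ} {n m : ℕ} {u : Fin m → Fin n → (W⁄M).toAffine.Point}
  {z : (F →+* K) → Fin m → Fin n → K} {ρ : (M ≃ₐ[F] M) →* GL (Fin n) ℤ}

/-- A ring homomorphism applied to the value of a polynomial. -/
theorem DsRel_map {R S : Type} [CommRing R] [CommRing S] (τ : R →+* S) {m : ℕ}
    (x : Fin m → R) (q : MvPolynomial (Fin m) R) :
    τ (MvPolynomial.eval x q) = MvPolynomial.eval (fun j => τ (x j)) (MvPolynomial.map τ q) := by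
  rw [MvPolynomial.eval_map]
  have h := MvPolynomial.eval₂_comp_left τ (RingHom.id R) x q
  rw [RingHom.comp_id] at h
  exact h

/-- `v₀ + p ^ k • v` is not zero for large `k`. -/
theorem DsRel_ne {p : ℕ} (hp : 2 ≤ p) {n : ℕ} {v₀ : Fin n → ℤ} (hv₀ : v₀ ≠ 0) (v : Fin n → ℤ) :
    ∃ N₀ : ℕ, ∀ N, N₀ ≤ N → v₀ + ((p : ℤ) ^ N) • v ≠ 0 := by
  obtain ⟨i, hi⟩ := Function.ne_iff.1 hv₀
  refine ⟨(v₀ i).natAbs, fun N hN h0 => ?_⟩
  have h1 : v₀ i + (p : ℤ) ^ N * v i = 0 := by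
    have := congrFun h0 i
    simpa using this
  have h2 : ((p ^ N : ℕ) : ℤ) ∣ v₀ i := by
    refine ⟨-v i, ?_⟩
    push_cast
    linarith
  have h3 : p ^ N ∣ (v₀ i).natAbs := Int.natCast_dvd.1 h2
  have h4 : p ^ N ≤ (v₀ i).natAbs := Nat.le_of_dvd (Int.natAbs_pos.2 hi) h3
  have h5 : N < p ^ N := Nat.lt_pow_self (by omega)
  omega

/-- The relation.  If `H` vanishes at the `1/x` of the points of a subgroup `V` different from `0` then
the vector `κ` of the partial derivatives at `v₀`, multiplied by `iV` (the derivative of `1/x`), is in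
relation with all elements of `V`.

Proof.  By `Rl_of_lg` fix `a, g`, `τ = (ι a) ∘ g`, `f = ev (fV ..)`, `f' = ev (derivative K (fV ..))`,
`w j = lg v₀ j`, `w' j = lg v j`.  Put `x j t = f (w j + t * w' j)`.  By `hasDerivAt_ev` (with `LC.bd`; as
`‖w j‖ ≤ rad r₀` choose `r` with `rad r₀ < r`, `r₀ * r < 1`, `LC.mul_rad_lt`; compose with
`t ↦ w j + t * w' j`), `x j` has at `0` the derivative `f' (w j) * w' j = τ (iV ..) * w' j`
(`LogData.iV_lg`).  Let `H' = MvPolynomial.map τ H`.  By `hasDerivAt_eval` the function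
`Φ t = eval (x j t) H'` has at `0` the derivative
`∑ j, eval (x j 0) (pderiv j H') * (x j)'(0) = ∑ j, τ (κ j) * w' j` (`MvPolynomial.pderiv_map`,
`MvPolynomial.eval_map`, `MvPolynomial.eval₂_comp`, `LogData.iX_lg`).
`Φ (p ^ k) = 0` for all large `k`: pick `i` with `v₀ i ≠ 0`; for `k ≥ |v₀ i|`,
`v₀ + p ^ k • v` is not `0` (else `p ^ k` divides `v₀ i ≠ 0`, `p ^ k > k`), it is in `V`, so
`eval (fun j => iX (∑ i, (v₀ + p ^ k • v) i • u j i)) H = 0`; apply `τ` and use `LogData.iX_lg`,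
`lg_add`.  `deriv_zero_of_pow`. -/
theorem LogData.rel (h : LogData p W ι r₀ u z) (hu : ∀ j, IsTw W ρ (u j)) [CharZero K]
    (V : AddSubgroup (Fin n → ℤ)) (H : MvPolynomial (Fin m) M)
    (hH : ∀ v ∈ V, v ≠ 0 → MvPolynomial.eval (fun j => iX (W⁄M) (∑ i, v i • u j i)) H = 0)
    {v₀ : Fin n → ℤ} (hv₀ : v₀ ∈ V) (hv₀0 : v₀ ≠ 0) {v : Fin n → ℤ} (hv : v ∈ V) :
    Rl ρ ι z (fun j =>
      MvPolynomial.eval (fun j => iX (W⁄M) (∑ i, v₀ i • u j i)) (MvPolynomial.pderiv j H) *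
        iV (W⁄M) (∑ i, v₀ i • u j i))
      (fun i => (v i : ℚ)) := by
  refine Rl_of_lg fun a g => ?_
  set f : PowerSeries K := fV ((W⁄M).map (ι a)) with hf
  set w : Fin m → K := fun j => lg ρ z a g v₀ j with hw
  set w' : Fin m → K := fun j => lg ρ z a g v j with hw'
  set τ : M →+* K := (ι a).comp (g : M →+* M) with hτ
  have hτa : ∀ x : M, τ x = ι a (g x) := fun x => rfl
  set H' : MvPolynomial (Fin m) K := MvPolynomial.map τ H with hH'
  have hlc := h.lc a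
  have hr0 : 0 < r₀ a := lt_of_lt_of_le (by norm_num) hlc.two_le
  obtain ⟨r, hr1, hr2⟩ : ∃ r, rad (r₀ a) < r ∧ r₀ a * r < 1 := by
    refine ⟨(rad (r₀ a) + (r₀ a)⁻¹) / 2, ?_, ?_⟩
    · have h1 : rad (r₀ a) < (r₀ a)⁻¹ := by
        rw [lt_inv_comm₀ hlc.rad_pos hr0, ← one_div, lt_div_iff₀ hlc.rad_pos]
        exact hlc.mul_rad_lt
      linarith
    · have h1 := hlc.mul_rad_lt
      have h2 : r₀ a * (r₀ a)⁻¹ = 1 := mul_inv_cancel₀ hr0.ne'
      have h3 : r₀ a * ((rad (r₀ a) + (r₀ a)⁻¹) / 2) = (r₀ a * rad (r₀ a) + 1) / 2 := by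
        rw [← h2]
        ring
      rw [h3]
      linarith
  have hbd : Bd (r₀ a) 1 f := hlc.bd
  have hder : ∀ j, HasDerivAt (fun t : K => ev f (w j + t * w' j))
      (ev (derivative K f) (w j) * w' j) 0 := by
    intro j
    have h1 : HasDerivAt (fun t : K => w j + t * w' j) (w' j) 0 := by
      have h2 := ((hasDerivAt_id (0 : K)).mul_const (w' j)).const_add (w j)
      rw [one_mul] at h2
      exact h2
    have h3 : ‖w j + 0 * w' j‖ < r := by
      rw [zero_mul, add_zero]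
      exact lt_of_le_of_lt (h.norm_lg a g v₀ j) hr1
    have h4 := hasDerivAt_ev hr0.le (hlc.rad_pos.trans hr1) hr2 hbd h3
    have h5 := HasDerivAt.comp (0 : K) h4 h1
    rw [zero_mul, add_zero] at h5
    exact h5
  have hΦ := hasDerivAt_eval H' hder
  have h0 : ∃ N₀ : ℕ, ∀ N, N₀ ≤ N →
      (fun t : K => MvPolynomial.eval (fun j => ev f (w j + t * w' j)) H') ((p : K) ^ N) = 0 := by
    obtain ⟨N₀, hN₀⟩ := DsRel_ne (Fact.out : p.Prime).two_le hv₀0 v
    refine ⟨N₀, fun N hN => ?_⟩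
    have h1 := hH (v₀ + ((p : ℤ) ^ N) • v) (V.add_mem hv₀ (V.zsmul_mem hv _)) (hN₀ N hN)
    have h2 := congrArg τ h1
    rw [map_zero, DsRel_map] at h2
    have h3 : (fun j => τ (iX (W⁄M) (∑ i, (v₀ + ((p : ℤ) ^ N) • v) i • u j i))) =
        fun j => ev f (w j + (p : K) ^ N * w' j) := by
      funext j
      rw [hτa, h.iX_lg hu a g, lg_add]
      push_cast
      rfl
    rw [h3] at h2
    exact h2
  have hz := deriv_zero_of_pow p hΦ h0
  rw [← hz]
  refine Finset.sum_congr rfl fun j _ => ?_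
  have e1 : ι a (g (MvPolynomial.eval (fun j => iX (W⁄M) (∑ i, v₀ i • u j i))
      (MvPolynomial.pderiv j H))) =
      MvPolynomial.eval (fun j => ev f (w j + 0 * w' j)) (MvPolynomial.pderiv j H') := by
    rw [← hτa, DsRel_map, hH', MvPolynomial.pderiv_map]
    congr 1
    have h3 : (fun j => τ (iX (W⁄M) (∑ i, v₀ i • u j i))) =
        fun j => ev f (w j + 0 * w' j) := by
      funext j
      rw [hτa, h.iX_lg hu a g, zero_mul, add_zero]
    rw [h3]
  rw [map_mul, map_mul, e1, h.iV_lg hu a g]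
  ring

end PCL

end
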