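import Pool.Agent.W_52423f_h99.DsCore
import Pool.Agent.W_52423f_h70.Stab

/-!
# Descent: the zero estimate for the twist
-/

open scoped Classical

noncomputable section

namespace PCL

open Pool.Agent.PTwist WeierstrassCurve WeierstrassCurve.Affine Matrix

variable {p : ℕ} [Fact p.Prime] {K : Type} [NontriviallyNormedField K] [CompleteSpace K]
  [IsUltrametricDist K] [NormedAlgebra ℚ_[p] K] {F M : Type} [Field F] [Field M] [CharZero M]
  [Algebra F M] [FiniteDimensional F M] [IsGalois F M]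
  {W : WeierstrassCurve F} [(W⁄M).IsElliptic] {ι : (F →+* K) → (M →+* K)}
  {r₀ : (F →+* K) → ℝ} {n m : ℕ} {u : Fin m → Fin n → (W⁄M).toAffine.Point}
  {z : (F →+* K) → Fin m → Fin n → K} {ρ : (M ≃ₐ[F] M) →* GL (Fin n) ℤ}

/-- The zero estimate.  `u_1, ..., u_m` are points of the twist which are independent over `F` in the
sense of the logarithms at all places; a nonzero polynomial of degree at most `D` in each variable
which vanishes at the `1/x` of all the points `∑ i, s i • u j i`, `s` in the box of size `m S`,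
satisfies `(2 S + 1) ^ n ≤ c D ^ m`. -/
theorem ze_twist (hρ : Irr ρ) (h : LogData p W ι r₀ u z) (hu : ∀ j, IsTw W ρ (u j))
    (hind : ∀ b : Fin m → F, (∀ a i, ∑ j, a (b j) * z a j i = 0) → b = 0)
    {γ : (Fin n → ℤ) →+ (Fin m → Pt (W⁄M) M)} (hγ : IsGam u γ) :
    ∃ c : ℕ, ∀ (S D : ℕ) (P : MvPolynomial (Fin m) M), 1 ≤ D → P ≠ 0 →
      (∀ i, P.degreeOf i ≤ D) → (∀ s ∈ box n (m * S), Van D P (γ s)) →
      (2 * S + 1) ^ n ≤ c * D ^ m := by
  obtain ⟨c, hc⟩ := stab m
  refine ⟨(c * 2 ^ n) ^ m, ?_⟩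
  intro S D P hD hP hdeg hvan
  obtain ⟨Ω, i1, i2, w, J, hac, hJ, hindJ, halg, -, hcard⟩ :=
    hc M (W⁄M) n γ (fun s hs j h0 => h.hne hρ hu hind s hs j (by
      have h1 := hγ s j
      rw [h0] at h1
      exact h1.symm)) S D P hD hP hdeg hvan
  exact ze_core hρ h hu hind hγ w J hJ hindJ halg hD hcard

end PCL

end
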