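import Pool.Agent.W_52423f_h99.DsZe
import Pool.Agent.W_52423f_h70.BrD
import Pool.Agent.W_52423f_h70.LgA
import Pool.Agent.W_52423f_h70.NcMain

/-!
# General base field: the rank at one place
-/

open scoped Classical

noncomputable section

namespace PCL

open Pool.Agent.PTwist WeierstrassCurve WeierstrassCurve.Affine

variable {p : ℕ} [Fact p.Prime] {K : Type} [NontriviallyNormedField K] [CompleteSpace K]
  [IsUltrametricDist K] [NormedAlgebra ℚ_[p] K] {F M : Type} [Field F] [Field M] [NumberField M]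
  [Algebra F M] [FiniteDimensional F M] [IsGalois F M]
  {W : WeierstrassCurve F} [(W⁄M).IsElliptic] {ι : (F →+* K) → (M →+* K)}
  {r₀ : (F →+* K) → ℝ} {n m : ℕ} {u : Fin m → Fin n → (W⁄M).toAffine.Point}
  {z : (F →+* K) → Fin m → Fin n → K}
  {ρ : (M ≃ₐ[F] M) →* Matrix.GeneralLinearGroup (Fin n) ℤ}

/-- The algebra generated by a number field over the p-adic numbers is a field. -/
theorem GfB_inv (ι : M →+* K) {x : K} (hx : x ∈ Algebra.adjoin ℚ_[p] (Set.range ι)) :
    x⁻¹ ∈ Algebra.adjoin ℚ_[p] (Set.range ι) := by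
  have h1 := LgA_finite (p := p) ι
  have h2 : FiniteDimensional ℚ_[p] (Algebra.adjoin ℚ_[p] (Set.range ι)) := h1
  have h3 : IsAlgebraic ℚ_[p] x := by
    have h4 : IsAlgebraic ℚ_[p] (⟨x, hx⟩ : Algebra.adjoin ℚ_[p] (Set.range ι)) :=
      Algebra.IsAlgebraic.isAlgebraic _
    exact (isAlgebraic_algebraMap_iff (A := K) Subtype.val_injective).2 h4
  exact Subalgebra.inv_mem_of_algebraic _ (x := ⟨x, hx⟩) h3

/-- Points of the twist which are independent over `F`: at every place the vectors of logarithms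
are linearly independent over the completion, if `2 m (m - 1) < n`. -/
theorem GfB_full (hρ : Irr ρ) (h : LogData p W ι r₀ u z) (hu : ∀ j, IsTw W ρ (u j))
    (hind : ∀ b : Fin m → F, (∀ a i, ∑ j, a (b j) * z a j i = 0) → b = 0)
    (hn : 2 * m * (m - 1) < n) (a : F →+* K) {y : Fin m → K}
    (hyA : ∀ j, y j ∈ Algebra.adjoin ℚ_[p] (Set.range (ι a)))
    (hy : ∀ i, ∑ j, y j * z a j i = 0) : y = 0 := by
  by_contra hy0
  obtain ⟨j₁, hj₁⟩ := Function.ne_iff.1 hy0
  obtain ⟨k, rfl⟩ : ∃ k, m = k + 1 := ⟨m - 1, by have := j₁.2; omega⟩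
  obtain ⟨j₀, hj₀⟩ := Finite.exists_max fun j => ‖y j‖
  have hyj₀ : y j₀ ≠ 0 := by
    intro h0
    have h1 := hj₀ j₁
    rw [h0, norm_zero] at h1
    exact hj₁ (norm_le_zero_iff.1 h1)
  have hz0 : ∀ i, z a j₀ i = ∑ l : Fin k, -(y (j₀.succAbove l) * (y j₀)⁻¹) * z a (j₀.succAbove l) i := by
    intro i
    have h1 := hy i
    rw [Fin.sum_univ_succAbove _ j₀] at h1
    have h2 : ∑ l : Fin k, -(y (j₀.succAbove l) * (y j₀)⁻¹) * z a (j₀.succAbove l) i =
        -(y j₀)⁻¹ * ∑ l : Fin k, y (j₀.succAbove l) * z a (j₀.succAbove l) i := by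
      rw [Finset.mul_sum]
      refine Finset.sum_congr rfl fun l _ => ?_
      ring
    rw [h2]
    have h3 : ∑ l : Fin k, y (j₀.succAbove l) * z a (j₀.succAbove l) i = -(y j₀ * z a j₀ i) := by
      linear_combination h1
    rw [h3]
    field_simp
  set c : Fin (k + 1) → Fin k → K := fun j l =>
    if j = j₀ then -(y (j₀.succAbove l) * (y j₀)⁻¹) else if j = j₀.succAbove l then 1 else 0 with hc
  have hcz : ∀ j i, ∑ l, c j l * z a (j₀.succAbove l) i = z a j i := by
    intro j i
    by_cases hj : j = j₀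
    · subst hj
      rw [hz0 i]
      refine Finset.sum_congr rfl fun l _ => ?_
      simp only [hc, if_true]
    · obtain ⟨l₀, rfl⟩ := Fin.exists_succAbove_eq hj
      rw [Finset.sum_eq_single l₀]
      · simp only [hc, if_neg hj, if_true, one_mul]
      · intro l _ hl
        have h1 : j₀.succAbove l₀ ≠ j₀.succAbove l := fun h2 =>
          hl (Fin.succAbove_right_injective h2).symm
        simp only [hc, if_neg hj, if_neg h1, zero_mul]
      · intro hl
        exact absurd (Finset.mem_univ _) hl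
  have hE : Rc.ExpDataR p (W⁄M) (ι a) (r₀ a) u c (fun l i => z a (j₀.succAbove l) i) :=
    { lc := h.lc a
      ball := fun l i => h.ball a _ i
      cmem := by
        intro j l
        simp only [hc]
        split_ifs
        · exact neg_mem (mul_mem (hyA _) (GfB_inv (ι a) (hyA _)))
        · exact one_mem _
        · exact zero_mem _
      cle := by
        intro j l
        simp only [hc]
        split_ifs
        · rw [norm_neg, norm_mul, norm_inv]
          rw [← div_eq_mul_inv]
          exact div_le_one_of_le₀ (hj₀ _) (norm_nonneg _)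
        · rw [norm_one]
        · rw [norm_zero]
          exact zero_le_one
      pts := by
        intro j i
        rw [hcz j i]
        exact h.pts a j i }
  obtain ⟨C₀, hC₀, hBP⟩ := Rc.bp_van (Nat.lt_succ_self k) hE (gam u) (fun s j => rfl)
  obtain ⟨c', hZE⟩ := ze_twist hρ h hu hind (γ := gam u) (fun s j => rfl)
  have key : n * (k + 1 - k) ≤ 2 * k * (k + 1) := by
    refine Nc_growth (c := c') (C₀ := C₀) fun v hv => ?_
    obtain ⟨P, hP, hdeg, hvan⟩ := hBP v hv
    exact hZE (v ^ (k + 1 - k)) (C₀ * v ^ (2 * k)) P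
      (Nat.mul_pos hC₀ (Nat.pow_pos hv)) hP hdeg hvan
  have h1 : k + 1 - k = 1 := by omega
  rw [h1, mul_one] at key
  rw [Nat.add_sub_cancel] at hn
  nlinarith

end PCL

end
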