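import Mathlib

/-!
# General base field: linear algebra
-/

open scoped Classical

noncomputable section

namespace PCL

/-- Coordinates complementary to a subspace.  For a subspace `L₀` of `F ^ m` there are a set `J` of
coordinates and vectors `A l` supported in `J` such that `e_l - A l` is in `L₀` and `L₀` contains no
nonzero vector supported in `J`.

Proof.  The images of the `e_l` span the quotient `F ^ m ⧸ L₀`; a subset `J` of them is a basis
(`exists_linearIndepOn_extension`, or take `J` maximal such that the images of the `e_j`, `j ∈ J`, are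
independent, i.e. no nonzero vector supported in `J` is in `L₀`: if `l ∉ J` there is a vector in `L₀`
supported in `insert l J` with `l`-th coordinate not zero, divide by this coordinate; for `l ∈ J` take
`A l = e_l`). -/
theorem exists_compl {F : Type} [Field F] {m : ℕ} (L₀ : Submodule F (Fin m → F)) :
    ∃ (J : Finset (Fin m)) (A : Fin m → Fin m → F), (∀ l, ∀ j ∉ J, A l j = 0) ∧
      (∀ l, Pi.single l 1 - A l ∈ L₀) ∧ ∀ b ∈ L₀, (∀ j ∉ J, b j = 0) → b = 0 := by
  -- `J` maximal
  let good : Finset (Fin m) → Prop := fun J => ∀ b ∈ L₀, (∀ j ∉ J, b j = 0) → b = 0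
  have h0 : good ∅ := by
    intro b _ hb
    funext j
    exact hb j (Finset.notMem_empty j)
  obtain ⟨J, hJ, hmax⟩ := (Finset.univ.filter good).exists_maximal
    ⟨∅, by rw [Finset.mem_filter]; exact ⟨Finset.mem_univ _, h0⟩⟩
  have hJg : good J := (Finset.mem_filter.1 hJ).2
  have key : ∀ l, ∃ a : Fin m → F, (∀ j ∉ J, a j = 0) ∧ Pi.single l 1 - a ∈ L₀ := by
    intro l
    by_cases hl : l ∈ J
    · refine ⟨Pi.single l 1, fun j hj => ?_, ?_⟩
      · rw [Pi.single_eq_of_ne]
        rintro rfl
        exact hj hl
      · rw [sub_self]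
        exact L₀.zero_mem
    · have h1 : ¬ good (insert l J) := by
        intro h2
        have h3 := hmax (y := insert l J) (Finset.mem_filter.2 ⟨Finset.mem_univ _, h2⟩)
          (Finset.subset_insert l J)
        exact hl (h3 (Finset.mem_insert_self l J))
      simp only [good, not_forall] at h1
      obtain ⟨b, hb, hbJ, hb0⟩ := h1
      have hbl : b l ≠ 0 := by
        intro h2
        apply hb0
        refine hJg b hb fun j hj => ?_
        by_cases hjl : j = l
        · rw [hjl]; exact h2
        · exact hbJ j (by rw [Finset.mem_insert]; tauto)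
      refine ⟨Pi.single l 1 - (b l)⁻¹ • b, fun j hj => ?_, ?_⟩
      · rw [Pi.sub_apply, Pi.smul_apply, smul_eq_mul]
        by_cases hjl : j = l
        · subst hjl
          rw [Pi.single_eq_same, inv_mul_cancel₀ hbl, sub_self]
        · rw [Pi.single_eq_of_ne hjl, hbJ j (by rw [Finset.mem_insert]; tauto), mul_zero, sub_self]
      · rw [sub_sub_cancel]
        exact L₀.smul_mem _ hb
  choose A hA1 hA2 using key
  exact ⟨J, A, hA1, hA2, hJg⟩

/-- Vectors over `ℚ` which are dependent over a bigger field are dependent over `ℚ`.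

Proof.  If the rows `q l` are linearly independent over `ℚ` there is a rational matrix `B` with
`∑ k, q l k * B k l' = δ_{l l'}` (a right inverse: `Matrix` rows independent, or extend to a basis); then
`x l' = ∑ l, x l * ∑ k, q l k * B k l' = 0`.  A linear dependence over `ℚ` gives one over `ℤ` by
multiplication with a common denominator. -/
theorem GfC_rat {K : Type} [Field K] [CharZero K] {m : ℕ} {T : Type} [Fintype T]
    (q : Fin m → T → ℚ) (x : Fin m → K) (hx : x ≠ 0) (h : ∀ k, ∑ l, x l * (q l k : K) = 0) :
    ∃ b : Fin m → ℤ, b ≠ 0 ∧ ∀ k, ∑ l, (b l : ℚ) * q l k = 0 := by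
  by_cases hli : LinearIndependent ℚ q
  · exfalso
    apply hx
    obtain ⟨g, hg⟩ := LinearMap.exists_leftInverse_of_injective (Fintype.linearCombination ℚ q)
      (LinearMap.ker_eq_bot.2 (linearIndependent_iff_injective_fintypeLinearCombination.1 hli))
    have hB : ∀ l l' : Fin m, ∑ k, q l k * g (Pi.single k 1) l' = if l = l' then 1 else 0 := by
      intro l l'
      have h1 : g (q l) = Pi.single l 1 := by
        have h2 := LinearMap.congr_fun hg (Pi.single l 1)
        rw [LinearMap.comp_apply, LinearMap.id_apply, Fintype.linearCombination_apply_single,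
          one_smul] at h2
        exact h2
      have h3 : q l = ∑ k, q l k • (Pi.single k 1 : T → ℚ) := by
        funext k'
        rw [Finset.sum_apply]
        simp [Pi.single_apply]
      have h4 : g (q l) l' = ∑ k, q l k * g (Pi.single k 1) l' := by
        conv_lhs => rw [h3]
        rw [map_sum, Finset.sum_apply]
        refine Finset.sum_congr rfl fun k _ => ?_
        rw [map_smul, Pi.smul_apply, smul_eq_mul]
      rw [← h4, h1, Pi.single_apply]
      by_cases hll : l = l'
      · rw [if_pos hll, if_pos hll.symm]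
      · rw [if_neg hll, if_neg (fun h => hll h.symm)]
    funext l'
    have h5 : ∑ l, x l * ((∑ k, q l k * g (Pi.single k 1) l' : ℚ) : K) = x l' := by
      rw [Finset.sum_eq_single l']
      · rw [hB, if_pos rfl, Rat.cast_one, mul_one]
      · intro l _ hl
        rw [hB, if_neg hl, Rat.cast_zero, mul_zero]
      · intro h
        exact absurd (Finset.mem_univ _) h
    rw [← h5, Pi.zero_apply]
    have h6 : ∑ l, x l * ((∑ k, q l k * g (Pi.single k 1) l' : ℚ) : K) =
        ∑ k, (∑ l, x l * (q l k : K)) * ((g (Pi.single k 1) l' : ℚ) : K) := by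
      simp only [Rat.cast_sum, Rat.cast_mul, Finset.mul_sum, Finset.sum_mul]
      rw [Finset.sum_comm]
      refine Finset.sum_congr rfl fun k _ => Finset.sum_congr rfl fun l _ => ?_
      ring
    rw [h6]
    exact Finset.sum_eq_zero fun k _ => by rw [h k, zero_mul]
  · rw [← LinearIndependent.iff_fractionRing ℤ ℚ, Fintype.not_linearIndependent_iff] at hli
    obtain ⟨b, hb, l, hl⟩ := hli
    refine ⟨b, fun h => hl (congrFun h l), fun k => ?_⟩
    have h1 := congrFun hb k
    rw [Finset.sum_apply, Pi.zero_apply] at h1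
    rw [← h1]
    refine Finset.sum_congr rfl fun l _ => ?_
    rw [Pi.smul_apply, zsmul_eq_mul]

/-- Vectors over a number field whose conjugates are simultaneously dependent over `K` with the same
coefficients are dependent over `ℤ`.

Proof.  Let `e` be a basis of `F` over `ℚ` (`Module.finBasis ℚ F`), `A l j = ∑ k, q l j k • e k`.
`∑ k, (∑ l, x l * q l j k) * a (e k) = 0` for all `a : F →+* K` and all `j`, and the matrix `(a (e k))` is
invertible (`Algebra.embeddingsMatrix`, `Algebra.discr_not_zero_of_basis`, or independence of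
characters: the `a` are as many as the `e k` and linearly independent over `K`), so
`∑ l, x l * q l j k = 0` for all `j, k`.  `GfC_rat` with `T = Fin m' × Fin _`. -/
theorem GfC_emb {F : Type} [Field F] [NumberField F] {K : Type} [Field K] [CharZero K]
    [IsAlgClosed K] {m m' : ℕ} (A : Fin m → Fin m' → F) (x : Fin m → K) (hx : x ≠ 0)
    (h : ∀ (a : F →+* K) (j : Fin m'), ∑ l, x l * a (A l j) = 0) :
    ∃ b : Fin m → ℤ, b ≠ 0 ∧ ∀ j, ∑ l, (b l : F) * A l j = 0 := by
  letI : Algebra ℚ K := DivisionRing.toRatAlgebra
  have hcard : Fintype.card (Fin (Module.finrank ℚ F)) = Fintype.card (F →ₐ[ℚ] K) := by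
    rw [Fintype.card_fin, AlgHom.card ℚ F K]
  obtain ⟨e⟩ := Fintype.card_eq.1 hcard
  have hdet : (Algebra.embeddingsMatrixReindex ℚ K (Module.finBasis ℚ F) e).det ≠ 0 := by
    intro h0
    have h1 := Algebra.discr_eq_det_embeddingsMatrixReindex_pow_two ℚ K (Module.finBasis ℚ F) e
    rw [h0, zero_pow two_ne_zero, map_eq_zero] at h1
    exact Algebra.discr_not_zero_of_basis ℚ (Module.finBasis ℚ F) h1
  have hA : ∀ l j, A l j = ∑ k, (Module.finBasis ℚ F).repr (A l j) k • Module.finBasis ℚ F k :=
    fun l j => ((Module.finBasis ℚ F).sum_repr (A l j)).symm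
  have hc : ∀ j, (fun k => ∑ l, x l * (((Module.finBasis ℚ F).repr (A l j) k : ℚ) : K)) = 0 := by
    intro j
    refine Matrix.eq_zero_of_vecMul_eq_zero hdet ?_
    funext s
    have h1 := h ((e s : F →ₐ[ℚ] K) : F →+* K) j
    rw [Pi.zero_apply, ← h1]
    have h2 : ∀ l, ((e s : F →ₐ[ℚ] K) : F →+* K) (A l j) =
        ∑ k, (((Module.finBasis ℚ F).repr (A l j) k : ℚ) : K) * (e s) (Module.finBasis ℚ F k) := by
      intro l
      conv_lhs => rw [hA l j]
      rw [map_sum]
      refine Finset.sum_congr rfl fun k _ => ?_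
      change (e s) (((Module.finBasis ℚ F).repr (A l j) k : ℚ) • Module.finBasis ℚ F k) = _
      rw [Algebra.smul_def, map_mul]
      congr 1
      rw [eq_ratCast, map_ratCast]
    simp only [h2, Finset.mul_sum]
    rw [Finset.sum_comm]
    change ∑ k, (∑ l, x l * (((Module.finBasis ℚ F).repr (A l j) k : ℚ) : K)) *
      (e s) (Module.finBasis ℚ F k) = _
    refine Finset.sum_congr rfl fun k _ => ?_
    rw [Finset.sum_mul]
    refine Finset.sum_congr rfl fun l _ => ?_
    rw [mul_assoc]
  obtain ⟨b, hb0, hb⟩ := GfC_rat (T := Fin m' × Fin (Module.finrank ℚ F))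
    (fun l t => (Module.finBasis ℚ F).repr (A l t.1) t.2) x hx
    (fun t => congrFun (hc t.1) t.2)
  refine ⟨b, hb0, fun j => ?_⟩
  have h3 : ∑ l, (b l : F) * A l j =
      ∑ k, (∑ l, (b l : ℚ) * (Module.finBasis ℚ F).repr (A l j) k) • Module.finBasis ℚ F k := by
    conv_lhs =>
      enter [2, l]
      rw [hA l j]
    simp only [Finset.mul_sum, Finset.sum_smul]
    rw [Finset.sum_comm]
    refine Finset.sum_congr rfl fun k _ => Finset.sum_congr rfl fun l _ => ?_
    rw [mul_smul, Algebra.smul_def (b l : ℚ)]
    congr 1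
    exact (map_intCast (algebraMap ℚ F) (b l)).symm
  rw [h3]
  refine Finset.sum_eq_zero fun k _ => ?_
  rw [hb (j, k), zero_smul]

end PCL

end
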