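import Pool.Agent.W_52423f_h99.GfB
import Pool.Agent.W_52423f_h99.GfC

/-!
# General base field: independence of the vectors of logarithms
-/

open scoped Classical

noncomputable section

namespace PCL

open Pool.Agent.PTwist WeierstrassCurve WeierstrassCurve.Affine

variable {p : ℕ} [Fact p.Prime] {K : Type} [NontriviallyNormedField K] [CompleteSpace K]
  [IsUltrametricDist K] [IsAlgClosed K] [NormedAlgebra ℚ_[p] K] {F M : Type} [Field F]
  [NumberField F] [Field M] [NumberField M]
  [Algebra F M] [IsGalois F M]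
  {W : WeierstrassCurve F} [(W⁄M).IsElliptic] {ι : (F →+* K) → (M →+* K)}
  {r₀ : (F →+* K) → ℝ} {n m : ℕ} {u : Fin m → Fin n → (W⁄M).toAffine.Point}
  {z : (F →+* K) → Fin m → Fin n → K}
  {ρ : (M ≃ₐ[F] M) →* Matrix.GeneralLinearGroup (Fin n) ℤ}

/-- The relations with coefficients in `F` between the logarithms. -/
def relF (z : (F →+* K) → Fin m → Fin n → K) : Submodule F (Fin m → F) where
  carrier := {b | ∀ a i, ∑ j, a (b j) * z a j i = 0}
  zero_mem' := by
    intro a i
    simp
  add_mem' := by
    intro b b' hb hb' a i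
    have h1 := hb a i
    have h2 := hb' a i
    simp only [Pi.add_apply, map_add, add_mul, Finset.sum_add_distrib, h1, h2, add_zero]
  smul_mem' := by
    intro c b hb a i
    have h1 := hb a i
    simp only [Pi.smul_apply, smul_eq_mul, map_mul, mul_assoc]
    rw [← Finset.mul_sum, h1, mul_zero]

theorem mem_relF {b : Fin m → F} : b ∈ relF z ↔ ∀ a i, ∑ j, a (b j) * z a j i = 0 := Iff.rfl

/-- The vectors of logarithms (at all places together) of independent points of the twist are
independent over the p-adic integers, if `2 m (m - 1) < n`. -/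
theorem logs_indep_F (hρ : Irr ρ) (h : LogData p W ι r₀ u z) (hu : ∀ j, IsTw W ρ (u j))
    (hZ : ∀ t : Fin m → ℤ, ∑ j, t j • u j = 0 → t = 0) (hn : 2 * m * (m - 1) < n)
    (x : Fin m → ℤ_[p])
    (hx : ∀ a i, ∑ j, algebraMap ℚ_[p] K (x j : ℚ_[p]) * z a j i = 0) : x = 0 := by
  have hFM : FiniteDimensional F M := Module.Finite.of_restrictScalars_finite ℚ F M
  have hK0 : CharZero K := Loc_charZero p K
  by_contra hx0
  obtain ⟨J, A, hA1, hA2, hA3⟩ := exists_compl (relF z)
  -- the subfamily
  set m' := J.card with hm'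
  have hm'm : m' ≤ m := by
    have h1 := Finset.card_le_univ J
    rwa [Fintype.card_fin] at h1
  set e : Fin m' → Fin m := fun l => J.orderEmbOfFin rfl l with he
  have heinj : Function.Injective e := fun a b hab => (J.orderEmbOfFin rfl).injective hab
  have heJ : ∀ l, e l ∈ J := fun l => J.orderEmbOfFin_mem rfl l
  have hsumJ : ∀ {R : Type} [AddCommMonoid R] (f : Fin m → R), (∀ j ∉ J, f j = 0) →
      ∑ j, f j = ∑ l, f (e l) := by
    intro R _ f hf
    rw [← Finset.sum_subset (Finset.subset_univ J) fun j _ hj => hf j hj]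
    rw [← Finset.sum_coe_sort J f, ← (J.orderIsoOfFin rfl).toEquiv.sum_comp]
    rfl
  have hzl : ∀ a l i, z a l i = ∑ j, a (A l j) * z a j i := by
    intro a l i
    have h1 := hA2 l a i
    have h2 : ∀ j, a ((Pi.single l 1 - A l : Fin m → F) j) * z a j i =
        (if j = l then z a j i else 0) - a (A l j) * z a j i := by
      intro j
      rw [Pi.sub_apply, map_sub, sub_mul]
      congr 1
      by_cases hj : j = l
      · subst hj
        rw [Pi.single_eq_same, map_one, one_mul, if_pos rfl]
      · rw [Pi.single_eq_of_ne hj, map_zero, zero_mul, if_neg hj]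
    rw [Finset.sum_congr rfl fun j _ => h2 j, Finset.sum_sub_distrib,
      Finset.sum_ite_eq' Finset.univ l, if_pos (Finset.mem_univ l)] at h1
    exact sub_eq_zero.1 h1
  have hL' : LogData p W ι r₀ (fun l => u (e l)) (fun a l i => z a (e l) i) :=
    { comp := h.comp
      lc := h.lc
      ball := fun a j i => h.ball a _ i
      pts := fun a j i => h.pts a _ i }
  have hind' : ∀ b : Fin m' → F, (∀ a i, ∑ j, a (b j) * z a (e j) i = 0) → b = 0 := by
    intro b hb
    set b' : Fin m → F := fun j => if hj : ∃ l, e l = j then b hj.choose else 0 with hb'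
    have hbe : ∀ l, b' (e l) = b l := by
      intro l
      have h1 : ∃ l', e l' = e l := ⟨l, rfl⟩
      simp only [hb', dif_pos h1]
      exact congrArg b (heinj h1.choose_spec)
    have hbJ : ∀ j ∉ J, b' j = 0 := by
      intro j hj
      have h1 : ¬ ∃ l, e l = j := by
        rintro ⟨l, rfl⟩
        exact hj (heJ l)
      simp only [hb', dif_neg h1]
    have h2 : b' = 0 := by
      refine hA3 b' (fun a i => ?_) hbJ
      rw [hsumJ (fun j => a (b' j) * z a j i) fun j hj => by rw [hbJ j hj, map_zero, zero_mul]]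
      rw [← hb a i]
      exact Finset.sum_congr rfl fun l _ => by rw [hbe l]
    funext l
    rw [← hbe l, h2]
    rfl
  have hn' : 2 * m' * (m' - 1) < n := by
    refine lt_of_le_of_lt ?_ hn
    exact Nat.mul_le_mul (Nat.mul_le_mul_left 2 hm'm) (Nat.sub_le_sub_right hm'm 1)
  have hxK : (fun l => algebraMap ℚ_[p] K (x l : ℚ_[p])) ≠ 0 := by
    intro h1
    apply hx0
    funext l
    have h2 := congrFun h1 l
    have h3 := (map_eq_zero (algebraMap ℚ_[p] K)).1 h2
    exact Subtype.ext h3
  -- the coefficients at each place vanish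
  have hy : ∀ a : F →+* K, (fun l' : Fin m' => ∑ l, algebraMap ℚ_[p] K (x l : ℚ_[p]) * a (A l (e l'))) =
      0 := by
    intro a
    refine GfB_full hρ hL' (fun l => hu (e l)) hind' hn' a ?_ ?_
    · intro l'
      refine sum_mem fun l _ => mul_mem (Subalgebra.algebraMap_mem _ _) ?_
      refine Algebra.subset_adjoin ⟨algebraMap F M (A l (e l')), ?_⟩
      exact congrArg (fun f : F →+* K => f (A l (e l'))) (h.comp a)
    · intro i
      rw [← hx a i]
      have h1 : ∀ l, algebraMap ℚ_[p] K (x l : ℚ_[p]) * z a l i =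
          ∑ l', algebraMap ℚ_[p] K (x l : ℚ_[p]) * a (A l (e l')) * z a (e l') i := by
        intro l
        rw [hzl a l i, hsumJ (fun j => a (A l j) * z a j i) fun j hj => by
          rw [hA1 l j hj, map_zero, zero_mul], Finset.mul_sum]
        exact Finset.sum_congr rfl fun l' _ => by ring
      rw [Finset.sum_congr rfl fun l _ => h1 l, Finset.sum_comm]
      exact Finset.sum_congr rfl fun l' _ => by rw [Finset.sum_mul]
  obtain ⟨b, hb0, hb⟩ := GfC_emb (fun l l' => A l (e l')) _ hxK fun a l' => congrFun (hy a) l'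
  -- the relation with integral coefficients
  obtain ⟨a₀⟩ : Nonempty (F →+* K) := ⟨(IsAlgClosed.lift : F →ₐ[ℚ] K).toRingHom⟩
  apply hb0
  refine hZ b ?_
  funext i
  have h1 := RelA_key (W⁄M) (ι a₀) (h.lc a₀) (P := fun j => u j i) (z := fun j => z a₀ j i)
    (fun j => h.ball a₀ j i) (fun j => h.pts a₀ j i) b
  have h2 : ∑ j, (b j : K) * z a₀ j i = 0 := by
    have h3 : ∀ l, (b l : K) * z a₀ l i =
        ∑ l', a₀ ((b l : F) * A l (e l')) * z a₀ (e l') i := by
      intro l
      rw [hzl a₀ l i, hsumJ (fun j => a₀ (A l j) * z a₀ j i) fun j hj => by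
        rw [hA1 l j hj, map_zero, zero_mul], Finset.mul_sum]
      refine Finset.sum_congr rfl fun l' _ => ?_
      rw [map_mul, map_intCast]
      ring
    rw [Finset.sum_congr rfl fun l _ => h3 l, Finset.sum_comm]
    refine Finset.sum_eq_zero fun l' _ => ?_
    rw [← Finset.sum_mul, ← map_sum, hb l', map_zero, zero_mul]
  rw [h2, expPt_zero] at h1
  rw [Finset.sum_apply]
  exact pmap_injective (W⁄M) (ι a₀) (h1.symm.trans (pmap_zero (W⁄M) (ι a₀)).symm)

end PCL

end
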