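import Pool.Agent.W_52423f_h99.GfB

/-!
# General base field: the rank at one place, not only the full rank
-/

open scoped Classical

noncomputable section

namespace PCL

open Pool.Agent.PTwist WeierstrassCurve WeierstrassCurve.Affine

/-- the relations between the rows of a matrix -/
def relK {K : Type} [Field K] {m n : ℕ} (z : Fin m → Fin n → K) : Submodule K (Fin m → K) where
  carrier := {y | ∀ i, ∑ j, y j * z j i = 0}
  zero_mem' := by
    intro i
    simp
  add_mem' := by
    intro y y' hy hy' i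
    have h1 := hy i
    have h2 := hy' i
    simp only [Pi.add_apply, add_mul, Finset.sum_add_distrib, h1, h2, add_zero]
  smul_mem' := by
    intro c y hy i
    have h1 := hy i
    simp only [Pi.smul_apply, smul_eq_mul, mul_assoc]
    rw [← Finset.mul_sum, h1, mul_zero]

theorem mem_relK {K : Type} [Field K] {m n : ℕ} {z : Fin m → Fin n → K} {y : Fin m → K} :
    y ∈ relK z ↔ ∀ i, ∑ j, y j * z j i = 0 := Iff.rfl

/-- Rows with entries in a subfield `E`: there are `r` rows `I 1, ..., I r`, with
`r + dim (relations) ≤ m`, such that all rows are combinations of them with coefficients in `E`. -/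
theorem exists_rows {k K : Type} [Field k] [Field K] [Algebra k K] (E : IntermediateField k K)
    {m n : ℕ} (z : Fin m → Fin n → K) (hz : ∀ j i, z j i ∈ E) :
    ∃ (r : ℕ) (I : Fin r → Fin m) (c : Fin m → Fin r → K), r + Module.finrank K (relK z) ≤ m ∧
      (∀ j l, c j l ∈ E) ∧ ∀ j i, z j i = ∑ l, c j l * z (I l) i := by
  -- a basis of the rows
  obtain ⟨κ, a, ha, hspan, hli⟩ := exists_linearIndependent' K z
  have hfin : Finite κ := Finite.of_injective a ha
  have := Fintype.ofFinite κ
  let e : κ ≃ Fin (Fintype.card κ) := Fintype.equivFin κ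
  set r := Fintype.card κ with hr
  set I : Fin r → Fin m := fun l => a (e.symm l) with hI
  have hli' : LinearIndependent K (fun l => z (I l)) :=
    (linearIndependent_equiv e.symm (f := z ∘ a)).2 hli
  have hrange : Set.range (fun l => z (I l)) = Set.range (z ∘ a) := by
    ext x
    constructor
    · rintro ⟨l, rfl⟩
      exact ⟨e.symm l, rfl⟩
    · rintro ⟨i, rfl⟩
      exact ⟨e i, by simp [hI]⟩
  have hmem : ∀ j, ∃ b : Fin r → K, ∑ l, b l • z (I l) = z j := by
    intro j
    have h1 : z j ∈ Submodule.span K (Set.range fun l => z (I l)) := by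
      rw [hrange, hspan]
      exact Submodule.subset_span ⟨j, rfl⟩
    exact (Submodule.mem_span_range_iff_exists_fun K).1 h1
  choose b hb using hmem
  -- a projection to the subfield
  obtain ⟨π, hπ⟩ : ∃ π : K →ₗ[E] E, ∀ x : E, π (x : K) = x := by
    obtain ⟨π, hπ⟩ := LinearMap.exists_leftInverse_of_injective (Algebra.linearMap E K)
      (LinearMap.ker_eq_bot.2 (algebraMap E K).injective)
    exact ⟨π, fun x => LinearMap.congr_fun hπ x⟩
  refine ⟨r, I, fun j l => (π (b j l) : K), ?_, fun j l => (π (b j l)).2, ?_⟩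
  · -- the dimension of the relations
    let f : (Fin m → K) →ₗ[K] (Fin n → K) :=
      { toFun := fun y i => ∑ j, y j * z j i
        map_add' := by
          intro y y'
          funext i
          simp only [Pi.add_apply, add_mul, Finset.sum_add_distrib]
        map_smul' := by
          intro c y
          funext i
          simp only [Pi.smul_apply, smul_eq_mul, mul_assoc, RingHom.id_apply, Finset.mul_sum] }
    have hker : relK z = LinearMap.ker f := by
      ext y
      rw [LinearMap.mem_ker]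
      exact ⟨fun h => funext h, fun h i => congrFun h i⟩
    have h1 := LinearMap.finrank_range_add_finrank_ker f
    rw [Module.finrank_fin_fun, ← hker] at h1
    have h2 : r ≤ Module.finrank K (LinearMap.range f) := by
      have h3 : ∀ l, z (I l) ∈ LinearMap.range f := by
        intro l
        refine ⟨Pi.single (I l) 1, ?_⟩
        funext i
        show ∑ j, (Pi.single (I l) (1 : K) : Fin m → K) j * z j i = z (I l) i
        rw [Finset.sum_eq_single (I l)]
        · rw [Pi.single_eq_same, one_mul]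
        · intro j _ hj
          rw [Pi.single_eq_of_ne hj, zero_mul]
        · intro h
          exact absurd (Finset.mem_univ _) h
      have h4 : LinearIndependent K (fun l => (⟨z (I l), h3 l⟩ : LinearMap.range f)) :=
        LinearIndependent.of_comp (LinearMap.range f).subtype hli'
      have h5 := h4.fintype_card_le_finrank
      rwa [Fintype.card_fin] at h5
    omega
  · intro j i
    have h1 := congrFun (hb j) i
    rw [Finset.sum_apply] at h1
    have h2 : ∀ l, (b j l • z (I l)) i = (⟨z (I l) i, hz (I l) i⟩ : E) • b j l := by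
      intro l
      rw [Pi.smul_apply, smul_eq_mul, mul_comm]
      rfl
    rw [Finset.sum_congr rfl fun l _ => h2 l] at h1
    have h3 := congrArg (fun x => ((π x : E) : K)) h1
    simp only [map_sum, map_smul] at h3
    have h4 : ((π (z j i) : E) : K) = z j i := congrArg Subtype.val (hπ ⟨z j i, hz j i⟩)
    rw [h4] at h3
    rw [← h3]
    push_cast
    refine Finset.sum_congr rfl fun l _ => ?_
    rw [smul_eq_mul]
    push_cast
    ring

theorem GfE_growth {n m r d c C₀ : ℕ} (hrd : r + d ≤ m)
    (h : r < m → ∀ v : ℕ, 1 ≤ v → (2 * v ^ (m - r) + 1) ^ n ≤ c * (C₀ * v ^ (2 * r)) ^ m) :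
    d * (n + 2 * m) ≤ 2 * m ^ 2 := by
  rcases Nat.lt_or_ge r m with hr | hr
  · have key := Nc_growth (h hr)
    have h1 : d ≤ m - r := by omega
    obtain ⟨q, hq⟩ : ∃ q, m = r + q := ⟨m - r, by omega⟩
    subst hq
    have h2 : r + q - r = q := by omega
    rw [h2] at key h1
    have h3 : d * n ≤ 2 * r * (r + q) := by
      calc d * n ≤ q * n := Nat.mul_le_mul_right _ h1
        _ = n * q := Nat.mul_comm _ _
        _ ≤ 2 * r * (r + q) := key
    calc d * (n + 2 * (r + q)) = d * n + 2 * d * (r + q) := by ring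
      _ ≤ 2 * r * (r + q) + 2 * q * (r + q) :=
        Nat.add_le_add h3 (Nat.mul_le_mul_right _ (Nat.mul_le_mul_left 2 h1))
      _ = 2 * (r + q) ^ 2 := by ring
  · have h1 : d = 0 := by omega
    rw [h1, Nat.zero_mul]
    exact Nat.zero_le _

section

variable {p : ℕ} [Fact p.Prime] {K : Type} [NontriviallyNormedField K] [CompleteSpace K]
  [IsUltrametricDist K] [NormedAlgebra ℚ_[p] K] {F M : Type} [Field F] [Field M] [NumberField M]
  [Algebra F M] [FiniteDimensional F M] [IsGalois F M]
  {W : WeierstrassCurve F} [(W⁄M).IsElliptic] {ι : (F →+* K) → (M →+* K)}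
  {r₀ : (F →+* K) → ℝ} {n m : ℕ} {u : Fin m → Fin n → (W⁄M).toAffine.Point}
  {z : (F →+* K) → Fin m → Fin n → K}
  {ρ : (M ≃ₐ[F] M) →* Matrix.GeneralLinearGroup (Fin n) ℤ}

/-- The completed number field as an intermediate field. -/
def cField (p : ℕ) [Fact p.Prime] {K : Type} [NontriviallyNormedField K] [CompleteSpace K]
    [IsUltrametricDist K] [NormedAlgebra ℚ_[p] K] {M : Type} [Field M] [NumberField M]
    (ι : M →+* K) : IntermediateField ℚ_[p] K :=
  { Algebra.adjoin ℚ_[p] (Set.range ι) with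
    inv_mem' := fun _ hx => GfB_inv ι hx }

theorem mem_cField {ι : M →+* K} {x : K} :
    x ∈ cField p ι ↔ x ∈ Algebra.adjoin ℚ_[p] (Set.range ι) := Iff.rfl

theorem GfE_scale (p : ℕ) [Fact p.Prime] {K : Type} [NontriviallyNormedField K]
    [NormedAlgebra ℚ_[p] K] {T : Type} [Finite T] (c : T → K) :
    ∃ N : ℕ, ∀ t, ‖(p : K) ^ N * c t‖ ≤ 1 := by
  obtain ⟨B, hB⟩ := Finite.exists_le fun t => ‖c t‖
  have hp1 : (1 : ℝ) < p := by exact_mod_cast (Fact.out : p.Prime).one_lt
  obtain ⟨N, hN⟩ := pow_unbounded_of_one_lt B hp1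
  refine ⟨N, fun t => ?_⟩
  have hpN : (0 : ℝ) < (p : ℝ) ^ N := by positivity
  have h1 : (p : K) = algebraMap ℚ_[p] K (p : ℚ_[p]) := (map_natCast _ _).symm
  rw [norm_mul, norm_pow, h1, norm_algebraMap', Padic.norm_p, inv_pow, inv_mul_le_iff₀ hpN, mul_one]
  exact (hB t).trans hN.le

/-- The number of relations at one place between the logarithms of points which are independent over
`F`. -/
theorem place_bound (hρ : Irr ρ) (h : LogData p W ι r₀ u z) (hu : ∀ j, IsTw W ρ (u j))
    (hind : ∀ b : Fin m → F, (∀ a i, ∑ j, a (b j) * z a j i = 0) → b = 0) (a : F →+* K) :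
    Module.finrank K (relK (z a)) * (n + 2 * m) ≤ 2 * m ^ 2 := by
  have hK0 : CharZero K := Loc_charZero p K
  obtain ⟨r, I, c, hr, hcE, hc⟩ := exists_rows (cField p (ι a)) (z a) fun j i =>
    mem_cField.2 (log_mem_adjoin (W⁄M) (ι a) (h.lc a) (h.ball a j i) (h.pts a j i))
  obtain ⟨N, hN⟩ := GfE_scale p (K := K) (T := Fin m × Fin r) fun t => c t.1 t.2
  have hp0 : (p : K) ≠ 0 := by exact_mod_cast (Fact.out : p.Prime).ne_zero
  have hpE : (p : K) ^ N ∈ cField p (ι a) := pow_mem (natCast_mem _ _) _
  -- the multiples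
  have hpn1 : ‖(p : K) ^ N‖ ≤ 1 := by
    have h1 := IsUltrametricDist.norm_intCast_le_one K ((p : ℤ) ^ N)
    push_cast at h1
    exact h1
  have hsm : ∀ (V : WeierstrassCurve K) [V.IsElliptic] {ρ₁ : ℝ} (hLC : LC p V.b₂ V.b₄ V.b₆ ρ₁)
      {w : K} (hw : ‖w‖ ≤ rad ρ₁), expPt V ((p : K) ^ N * w) = ((p : ℤ) ^ N) • expPt V w := by
    intro V _ ρ₁ hLC w hw
    rw [← expPt_zsmul V hLC hw, zsmul_eq_mul]
    push_cast
    rfl
  have hEa : ∀ a : F →+* K, ((W⁄M).map (ι a)).IsElliptic := fun a =>
    inferInstanceAs ((W⁄M).map (ι a)).IsElliptic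
  set u' : Fin m → Fin n → (W⁄M).toAffine.Point := fun j => ((p : ℤ) ^ N) • u j with hu'
  have hball' : ∀ a j i, ‖(p : K) ^ N * z a j i‖ ≤ rad (r₀ a) := by
    intro a j i
    rw [norm_mul]
    calc ‖(p : K) ^ N‖ * ‖z a j i‖ ≤ 1 * ‖z a j i‖ :=
          mul_le_mul_of_nonneg_right hpn1 (norm_nonneg _)
      _ ≤ rad (r₀ a) := by rw [one_mul]; exact h.ball a j i
  have hpts' : ∀ a j i, expPt ((W⁄M).map (ι a)) ((p : K) ^ N * z a j i) =
      pmap (W⁄M) (ι a) (u' j i) := by
    intro a j i
    rw [hsm _ (h.lc a) (h.ball a j i), h.pts a j i, ← pmap_zsmul]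
    rfl
  have h' : LogData p W ι r₀ u' (fun a j i => (p : K) ^ N * z a j i) :=
    { comp := h.comp
      lc := h.lc
      ball := hball'
      pts := hpts' }
  have hind' : ∀ b : Fin m → F,
      (∀ a i, ∑ j, a (b j) * ((p : K) ^ N * z a j i) = 0) → b = 0 := by
    intro b hb
    refine hind b fun a i => ?_
    have h1 := hb a i
    have h2 : ∑ j, a (b j) * ((p : K) ^ N * z a j i) = (p : K) ^ N * ∑ j, a (b j) * z a j i := by
      rw [Finset.mul_sum]
      exact Finset.sum_congr rfl fun j _ => by ring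
    rw [h2] at h1
    exact (mul_eq_zero.1 h1).resolve_left (pow_ne_zero _ hp0)
  have hE : Rc.ExpDataR p (W⁄M) (ι a) (r₀ a) u' (fun j l => (p : K) ^ N * c j l)
      (fun l i => z a (I l) i) :=
    { lc := h.lc a
      ball := fun l i => h.ball a _ i
      cmem := fun j l => mem_cField.1 (mul_mem hpE (hcE j l))
      cle := fun j l => hN (j, l)
      pts := by
        intro j i
        rw [← hpts' a j i]
        congr 1
        rw [hc j i, Finset.mul_sum]
        exact Finset.sum_congr rfl fun l _ => by ring }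
  obtain ⟨c', hZE⟩ := ze_twist hρ h' (fun j => (hu j).zsmul _) hind' (γ := gam u')
    (fun s j => rfl)
  rcases Nat.lt_or_ge r m with hrm | hrm
  · obtain ⟨C₀, hC₀, hBP⟩ := Rc.bp_van hrm hE (gam u') (fun s j => rfl)
    refine GfE_growth (c := c') (C₀ := C₀) hr fun _ v hv => ?_
    obtain ⟨P, hP, hdeg, hvan⟩ := hBP v hv
    exact hZE (v ^ (m - r)) (C₀ * v ^ (2 * r)) P
      (Nat.mul_pos hC₀ (Nat.pow_pos hv)) hP hdeg hvan
  · exact GfE_growth (c := 0) (C₀ := 0) hr fun hlt => absurd hlt (not_lt.2 hrm)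

end

end PCL

end
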