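import Pool.Agent.W_52423f_h99.GfE
import Pool.Agent.W_52423f_h99.GfC
import Pool.Agent.W_52423f_h99.GfD

/-!
# General base field: the number of relations between the logarithms at all places
-/

open scoped Classical

noncomputable section

namespace PCL

open Pool.Agent.PTwist WeierstrassCurve WeierstrassCurve.Affine

variable {p : ℕ} [Fact p.Prime] {K : Type} [NontriviallyNormedField K] [CompleteSpace K]
  [IsUltrametricDist K] [IsAlgClosed K] [NormedAlgebra ℚ_[p] K] {F M : Type} [Field F]
  [NumberField F] [Field M] [NumberField M]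
  [Algebra F M] [IsGalois F M]
  {W : WeierstrassCurve F} [(W⁄M).IsElliptic] {ι : (F →+* K) → (M →+* K)}
  {r₀ : (F →+* K) → ℝ} {n m : ℕ} {u : Fin m → Fin n → (W⁄M).toAffine.Point}
  {z : (F →+* K) → Fin m → Fin n → K}
  {ρ : (M ≃ₐ[F] M) →* Matrix.GeneralLinearGroup (Fin n) ℤ}

/-- The relations with coefficients in `K` between the logarithms at all places. -/
def relA (z : (F →+* K) → Fin m → Fin n → K) : Submodule K (Fin m → K) where
  carrier := {x | ∀ a i, ∑ j, x j * z a j i = 0}
  zero_mem' := by
    intro a i
    simp
  add_mem' := by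
    intro y y' hy hy' a i
    have h1 := hy a i
    have h2 := hy' a i
    simp only [Pi.add_apply, add_mul, Finset.sum_add_distrib, h1, h2, add_zero]
  smul_mem' := by
    intro c y hy a i
    have h1 := hy a i
    simp only [Pi.smul_apply, smul_eq_mul, mul_assoc]
    rw [← Finset.mul_sum, h1, mul_zero]

theorem mem_relA {x : Fin m → K} : x ∈ relA z ↔ ∀ a i, ∑ j, x j * z a j i = 0 := Iff.rfl

/-- A subfamily which is a basis over `F`. -/
theorem exists_subfamily (z : (F →+* K) → Fin m → Fin n → K) :
    ∃ (m' : ℕ) (e : Fin m' → Fin m) (B : Fin m → Fin m' → F), m' ≤ m ∧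
      (∀ b : Fin m' → F, (∀ a i, ∑ j, a (b j) * z a (e j) i = 0) → b = 0) ∧
      ∀ a l i, z a l i = ∑ j, a (B l j) * z a (e j) i := by
  obtain ⟨J, A, hA1, hA2, hA3⟩ := exists_compl (relF z)
  -- the subfamily
  set m' := J.card with hm'
  have hm'm : m' ≤ m := by
    have h1 := Finset.card_le_univ J
    rwa [Fintype.card_fin] at h1
  set e : Fin m' → Fin m := fun l => J.orderEmbOfFin rfl l with he
  have heinj : Function.Injective e := fun a b hab => (J.orderEmbOfFin rfl).injective hab
  have heJ : ∀ l, e l ∈ J := fun l => J.orderEmbOfFin_mem rfl l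
  have hsumJ : ∀ {R : Type} [AddCommMonoid R] (f : Fin m → R), (∀ j ∉ J, f j = 0) →
      ∑ j, f j = ∑ l, f (e l) := by
    intro R _ f hf
    rw [← Finset.sum_subset (Finset.subset_univ J) fun j _ hj => hf j hj]
    rw [← Finset.sum_coe_sort J f, ← (J.orderIsoOfFin rfl).toEquiv.sum_comp]
    rfl
  have hzl : ∀ a l i, z a l i = ∑ j, a (A l j) * z a j i := by
    intro a l i
    have h1 := hA2 l a i
    have h2 : ∀ j, a ((Pi.single l 1 - A l : Fin m → F) j) * z a j i =
        (if j = l then z a j i else 0) - a (A l j) * z a j i := by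
      intro j
      rw [Pi.sub_apply, map_sub, sub_mul]
      congr 1
      by_cases hj : j = l
      · subst hj
        rw [Pi.single_eq_same, map_one, one_mul, if_pos rfl]
      · rw [Pi.single_eq_of_ne hj, map_zero, zero_mul, if_neg hj]
    rw [Finset.sum_congr rfl fun j _ => h2 j, Finset.sum_sub_distrib,
      Finset.sum_ite_eq' Finset.univ l, if_pos (Finset.mem_univ l)] at h1
    exact sub_eq_zero.1 h1
  refine ⟨m', e, fun l l' => A l (e l'), hm'm, ?_, ?_⟩
  · intro b hb
    set b' : Fin m → F := fun j => if hj : ∃ l, e l = j then b hj.choose else 0 with hb'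
    have hbe : ∀ l, b' (e l) = b l := by
      intro l
      have h1 : ∃ l', e l' = e l := ⟨l, rfl⟩
      simp only [hb', dif_pos h1]
      exact congrArg b (heinj h1.choose_spec)
    have hbJ : ∀ j ∉ J, b' j = 0 := by
      intro j hj
      have h1 : ¬ ∃ l, e l = j := by
        rintro ⟨l, rfl⟩
        exact hj (heJ l)
      simp only [hb', dif_neg h1]
    have h2 : b' = 0 := by
      refine hA3 b' (fun a i => ?_) hbJ
      rw [hsumJ (fun j => a (b' j) * z a j i) fun j hj => by rw [hbJ j hj, map_zero, zero_mul]]
      rw [← hb a i]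
      exact Finset.sum_congr rfl fun l _ => by rw [hbe l]
    funext l
    rw [← hbe l, h2]
    rfl
  · intro a l i
    rw [hzl a l i, hsumJ (fun j => a (A l j) * z a j i) fun j hj => by
      rw [hA1 l j hj, map_zero, zero_mul]]

/-- The number of relations. -/
theorem count_bound (hρ : Irr ρ) (h : LogData p W ι r₀ u z) (hu : ∀ j, IsTw W ρ (u j))
    (hZ : ∀ t : Fin m → ℤ, ∑ j, t j • u j = 0 → t = 0) :
    ∃ e : ℕ, Module.finrank K (relA z) ≤ Module.finrank ℚ F * e ∧
      e * (n + 2 * m) ≤ 2 * m ^ 2 := by
  have hFM : FiniteDimensional F M := Module.Finite.of_restrictScalars_finite ℚ F M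
  have hK0 : CharZero K := Loc_charZero p K
  obtain ⟨m', e, B, hm'm, hind', hzl⟩ := exists_subfamily z
  have hL' : LogData p W ι r₀ (fun l => u (e l)) (fun a l i => z a (e l) i) :=
    { comp := h.comp
      lc := h.lc
      ball := fun a j i => h.ball a _ i
      pts := fun a j i => h.pts a _ i }
  obtain ⟨a₀⟩ : Nonempty (F →+* K) := ⟨(IsAlgClosed.lift : F →ₐ[ℚ] K).toRingHom⟩
  have hpl := fun a => place_bound hρ hL' (fun l => hu (e l)) hind' a
  have hle : ∀ a : F →+* K, Module.finrank K (relK fun l i => z a (e l) i) ≤ m' := by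
    intro a
    have h1 := Submodule.finrank_le (relK fun l i => z a (e l) i)
    rwa [Module.finrank_fin_fun] at h1
  obtain ⟨a₁, ha₁⟩ := Finite.exists_max fun a : F →+* K =>
    Module.finrank K (relK fun l i => z a (e l) i)
  refine ⟨Module.finrank K (relK fun l i => z a₁ (e l) i), ?_, ?_⟩
  · -- the linear map
    let Φ : relA z →ₗ[K] ((a : F →+* K) → relK fun l i => z a (e l) i) :=
      { toFun := fun x a => ⟨fun l' => ∑ l, (x : Fin m → K) l * a (B l l'), fun i => by
          have h1 := x.2 a i
          rw [← h1]
          have h2 : ∀ l, (x : Fin m → K) l * z a l i =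
              ∑ l', (x : Fin m → K) l * a (B l l') * z a (e l') i := by
            intro l
            rw [hzl a l i, Finset.mul_sum]
            exact Finset.sum_congr rfl fun l' _ => by ring
          rw [Finset.sum_congr rfl fun l _ => h2 l, Finset.sum_comm]
          exact Finset.sum_congr rfl fun l' _ => by rw [Finset.sum_mul]⟩
        map_add' := by
          intro x y
          funext a
          apply Subtype.ext
          funext l'
          show ∑ l, ((x + y : relA z) : Fin m → K) l * a (B l l') =
            ∑ l, (x : Fin m → K) l * a (B l l') + ∑ l, (y : Fin m → K) l * a (B l l')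
          rw [← Finset.sum_add_distrib]
          refine Finset.sum_congr rfl fun l _ => ?_
          rw [Submodule.coe_add, Pi.add_apply, add_mul]
        map_smul' := by
          intro c x
          funext a
          apply Subtype.ext
          funext l'
          show ∑ l, ((c • x : relA z) : Fin m → K) l * a (B l l') =
            c * ∑ l, (x : Fin m → K) l * a (B l l')
          rw [Finset.mul_sum]
          refine Finset.sum_congr rfl fun l _ => ?_
          rw [Submodule.coe_smul, Pi.smul_apply, smul_eq_mul, mul_assoc] }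
    have hΦ : Function.Injective Φ := by
      rw [← LinearMap.ker_eq_bot, LinearMap.ker_eq_bot']
      intro x hx
      by_contra hx0
      have hx1 : (x : Fin m → K) ≠ 0 := fun h1 => hx0 (Subtype.ext h1)
      obtain ⟨b, hb0, hb⟩ := GfC_emb B (x : Fin m → K) hx1 fun a l' =>
        congrFun (congrArg Subtype.val (congrFun hx a)) l'
      apply hb0
      refine hZ b ?_
      funext i
      have h1 := RelA_key (W⁄M) (ι a₀) (h.lc a₀) (P := fun j => u j i) (z := fun j => z a₀ j i)
        (fun j => h.ball a₀ j i) (fun j => h.pts a₀ j i) b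
      have h2 : ∑ j, (b j : K) * z a₀ j i = 0 := by
        have h3 : ∀ l, (b l : K) * z a₀ l i =
            ∑ l', a₀ ((b l : F) * B l l') * z a₀ (e l') i := by
          intro l
          rw [hzl a₀ l i, Finset.mul_sum]
          refine Finset.sum_congr rfl fun l' _ => ?_
          rw [map_mul, map_intCast]
          ring
        rw [Finset.sum_congr rfl fun l _ => h3 l, Finset.sum_comm]
        refine Finset.sum_eq_zero fun l' _ => ?_
        rw [← Finset.sum_mul, ← map_sum, hb l', map_zero, zero_mul]
      rw [h2, expPt_zero] at h1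
      rw [Finset.sum_apply]
      exact pmap_injective (W⁄M) (ι a₀) (h1.symm.trans (pmap_zero (W⁄M) (ι a₀)).symm)
    have h1 := LinearMap.finrank_le_finrank_of_injective hΦ
    rw [Module.finrank_pi_fintype] at h1
    refine h1.trans ?_
    calc ∑ a : F →+* K, Module.finrank K (relK fun l i => z a (e l) i)
        ≤ ∑ _a : F →+* K, Module.finrank K (relK fun l i => z a₁ (e l) i) :=
          Finset.sum_le_sum fun a _ => ha₁ a
      _ = Module.finrank ℚ F * Module.finrank K (relK fun l i => z a₁ (e l) i) := by
          rw [Finset.sum_const, smul_eq_mul, Finset.card_univ]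
          congr 1
          exact NumberField.Embeddings.card F K
  · have h1 := hpl a₁
    have h2 := hle a₁
    set δ := Module.finrank K (relK fun l i => z a₁ (e l) i) with hδ
    obtain ⟨q, rfl⟩ := Nat.exists_eq_add_of_le hm'm
    nlinarith [Nat.mul_le_mul_right q h2]

end PCL

end
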