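import Pool.Agent.W_52423f_h99.GfF
import Pool.Agent.W_52423f_h99.DsSp
import Pool.Agent.W_52423f_h70.CrA
import Pool.Agent.W_52423f_h70.CrB
import Pool.Agent.W_52423f_h30.Tor
import Pool.Agent.W_52423f_h30.Grp

/-!
# The rank of the closure of a subgroup of the twist, general base field
-/

open scoped Classical

noncomputable section

namespace PCL

open Pool.Agent.PTwist WeierstrassCurve WeierstrassCurve.Affine

/-- The number of relations is at least `m - r` if all vectors are combinations of `r` of them. -/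
theorem GfG_dim {K : Type} [Field K] {m r : ℕ} {T : Type} (z : Fin m → T → K) (I : Fin r → Fin m)
    (c : Fin m → Fin r → K) {q : K} (hq : q ≠ 0) (hc : ∀ j t, q * z j t = ∑ l, c j l * z (I l) t)
    (X : Submodule K (Fin m → K)) (hX : ∀ x : Fin m → K, (∀ t, ∑ j, x j * z j t = 0) → x ∈ X) :
    m ≤ r + Module.finrank K X := by
  set J : Finset (Fin m) := Finset.univ.image I with hJ
  have hJr : J.card ≤ r := by
    have h1 : J.card ≤ (Finset.univ : Finset (Fin r)).card := Finset.card_image_le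
    rwa [Finset.card_univ, Fintype.card_fin] at h1
  set κ : {i : Fin m // i ∉ J} → Fin m → K := fun i j =>
    (if j = i.1 then q else 0) - ∑ l, (if j = I l then c i.1 l else 0) with hκ
  have hIJ : ∀ l, I l ∈ J := fun l => Finset.mem_image_of_mem I (Finset.mem_univ l)
  have h1 := DsPd_span J κ (by
    intro i j hj
    rw [Finset.mem_insert, not_or] at hj
    simp only [hκ]
    rw [if_neg hj.1, zero_sub, neg_eq_zero]
    refine Finset.sum_eq_zero fun l _ => if_neg ?_
    rintro rfl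
    exact hj.2 (hIJ l)) (by
    intro i
    simp only [hκ]
    rw [if_pos trivial, Finset.sum_eq_zero fun l _ => if_neg ?_, sub_zero]
    · exact hq
    · intro h2
      exact i.2 (h2 ▸ hIJ l))
  have h2 : Submodule.span K (Set.range κ) ≤ X := by
    rw [Submodule.span_le]
    rintro _ ⟨i, rfl⟩
    refine hX _ fun t => ?_
    simp only [hκ]
    have h3 : ∀ j, ((if j = i.1 then q else 0) - ∑ l, (if j = I l then c i.1 l else 0)) * z j t =
        (if j = i.1 then q * z j t else 0) - ∑ l, (if j = I l then c i.1 l * z j t else 0) := by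
      intro j
      rw [sub_mul, Finset.sum_mul]
      congr 1
      · split_ifs
        · rfl
        · rw [zero_mul]
      · refine Finset.sum_congr rfl fun l _ => ?_
        split_ifs
        · rfl
        · rw [zero_mul]
    rw [Finset.sum_congr rfl fun j _ => h3 j, Finset.sum_sub_distrib,
      Finset.sum_ite_eq' Finset.univ i.1, if_pos (Finset.mem_univ _), Finset.sum_comm, hc i.1 t,
      sub_eq_zero]
    refine Finset.sum_congr rfl fun l _ => ?_
    rw [Finset.sum_ite_eq' Finset.univ (I l), if_pos (Finset.mem_univ _)]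
  have h3 := Submodule.finrank_mono h2
  rw [h1] at h3
  omega

variable {F M : Type} [Field F] [NumberField F] [Field M] [NumberField M] [Algebra F M]
  [IsGalois F M]
variable {K : Type} [NontriviallyNormedField K] [CompleteSpace K] [IsUltrametricDist K]
  [IsAlgClosed K] {p : ℕ} [Fact p.Prime] [NormedAlgebra ℚ_[p] K]

/-- The theorem over a general field `K`. -/
theorem main_G (W : WeierstrassCurve F) [W.IsElliptic] {n m : ℕ}
    (ρ : (M ≃ₐ[F] M) →* Matrix.GeneralLinearGroup (Fin n) ℤ) (hρ : Irr ρ)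
    (ι : (F →+* K) → (M →+* K)) (hι : ∀ a, (ι a).comp (algebraMap F M) = a)
    (L : AddSubgroup (Fin n → (W⁄M).toAffine.Point)) (hL : ∀ P ∈ L, IsTw W ρ P) (hfg : L.FG)
    (hr : Module.finrank ℤ L = m) :
    ∃ r e : ℕ, r ≤ m ∧ HasRank (fun t : (F →+* K) × Fin n => (W⁄M).map (ι t.1)) p r
      (clos (fun t : (F →+* K) × Fin n => (W⁄M).map (ι t.1))
        ((fun P t => pmap (W⁄M) (ι t.1) (P t.2)) '' (L : Set (Fin n → (W⁄M).toAffine.Point)))) ∧
      m ≤ r + Module.finrank ℚ F * e ∧ e * (n + 2 * m) ≤ 2 * m ^ 2 := by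
  have hK0 : CharZero K := Loc_charZero p K
  have hE : (W⁄M).IsElliptic :=
    inferInstanceAs (W.map (algebraMap F M)).IsElliptic
  have hEa : ∀ a : F →+* K, ((W⁄M).map (ι a)).IsElliptic := fun a =>
    inferInstanceAs ((W⁄M).map (ι a)).IsElliptic
  have hEt : ∀ t : (F →+* K) × Fin n, ((W⁄M).map (ι t.1)).IsElliptic := fun t => hEa t.1
  obtain ⟨u, huL, huind, hucos⟩ := Grp_basis hfg hr
  choose r₀ hLC using fun a : F →+* K => exists_LC p ((W⁄M).map (ι a)).b₂ ((W⁄M).map (ι a)).b₄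
    ((W⁄M).map (ι a)).b₆
  choose R hR using fun a : F →+* K => expPt_surj ((W⁄M).map (ι a)) (hLC a)
  obtain ⟨R₁, hR₁⟩ := Finite.exists_le R
  obtain ⟨N, hN0, hN⟩ := exists_near_family (W⁄M) (K := K) p
    (T := (F →+* K) × (Fin m × Fin n)) (fun t => ι t.1) (fun t => u t.2.1 t.2.2) R₁
  have hex : ∀ (j : Fin m) (a : F →+* K) (i : Fin n), ∃ z : K, ‖z‖ ≤ rad (r₀ a) ∧
      expPt ((W⁄M).map (ι a)) z = pmap (W⁄M) (ι a) ((N : ℤ) • u j i) := fun j a i =>
    hR a _ (near_mono _ (hR₁ a) (hN (a, (j, i))))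
  choose z hz hzu using hex
  obtain ⟨r, k, I, c, hrm, hc, hcind⟩ := exists_independent p
    (fun (j : Fin m) (t : (F →+* K) × Fin n) => z j t.1 t.2)
  have hNz : (N : ℤ) ≠ 0 := by exact_mod_cast hN0.ne'
  have hp0 : (p : K) ≠ 0 := by exact_mod_cast (Fact.out : p.Prime).ne_zero
  have hpz : ((p : ℤ) ^ k) ≠ 0 := by
    have hp := (Fact.out : p.Prime).ne_zero
    exact pow_ne_zero _ (by exact_mod_cast hp)
  obtain ⟨Q, hQ⟩ : ∃ Q : ℤ, Q = (p : ℤ) ^ k * N := ⟨_, rfl⟩
  have hQ0 : Q ≠ 0 := by rw [hQ]; exact mul_ne_zero hpz hNz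
  -- the homomorphism to the product
  let f : (Fin n → (W⁄M).toAffine.Point) →+
      ((t : (F →+* K) × Fin n) → ((W⁄M).map (ι t.1)).toAffine.Point) :=
    { toFun := fun P t => pmap (W⁄M) (ι t.1) (P t.2)
      map_zero' := by
        funext t
        exact pmap_zero (W⁄M) (ι t.1)
      map_add' := by
        intro P Q
        funext t
        exact pmap_add (W⁄M) (ι t.1) (P t.2) (Q t.2) }
  have hf : ∀ P t, f P t = pmap (W⁄M) (ι t.1) (P t.2) := fun P t => rfl
  -- the exponential of the combinations of the `z (I l)`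
  have hpts : ∀ (j : Fin m) (t : (F →+* K) × Fin n),
      expPt ((W⁄M).map (ι t.1)) (∑ l, algebraMap ℚ_[p] K (c j l : ℚ_[p]) * z (I l) t.1 t.2) =
        pmap (W⁄M) (ι t.1) (Q • u j t.2) := by
    intro j t
    rw [← hc j t]
    have h1 : (p : K) ^ k * z j t.1 t.2 = ((p : ℤ) ^ k) • z j t.1 t.2 := by
      rw [zsmul_eq_mul]
      push_cast
      rfl
    rw [h1, expPt_zsmul ((W⁄M).map (ι t.1)) (hLC t.1) (hz j t.1 t.2), hzu j t.1 t.2,
      ← pmap_zsmul, hQ, mul_smul]
  have hball : ∀ (j : Fin m) (t : (F →+* K) × Fin n),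
      ‖∑ l, algebraMap ℚ_[p] K (c j l : ℚ_[p]) * z (I l) t.1 t.2‖ ≤ rad (r₀ t.1) := by
    intro j t
    refine IsUltrametricDist.norm_sum_le_of_forall_le_of_nonneg (hLC t.1).rad_pos.le fun l _ => ?_
    rw [norm_mul, norm_algebraMap']
    have h1 : ‖(c j l : ℚ_[p])‖ ≤ 1 := (c j l).2
    calc ‖(c j l : ℚ_[p])‖ * ‖z (I l) t.1 t.2‖ ≤ 1 * ‖z (I l) t.1 t.2‖ :=
          mul_le_mul_of_nonneg_right h1 (norm_nonneg _)
      _ = ‖z (I l) t.1 t.2‖ := one_mul _
      _ ≤ rad (r₀ t.1) := hz _ _ _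
  obtain ⟨e, he1, he2⟩ := count_bound (W := W) (ρ := ρ) (ι := ι) (r₀ := r₀)
    (u := fun j => (N : ℤ) • u j) (z := fun a j i => z j a i) hρ
    ⟨hι, hLC, fun a j i => hz j a i, fun a j i => hzu j a i⟩
    (fun j => IsTw.zsmul (hL _ (huL j)) N) (by
      intro t ht
      have h3 := huind (fun j => t j * N) (by
        rw [← ht]
        exact Finset.sum_congr rfl fun j _ => mul_smul _ _ _)
      funext j
      exact (mul_eq_zero.1 (congrFun h3 j)).resolve_right hNz)
  have hdim := GfG_dim (fun (j : Fin m) (t : (F →+* K) × Fin n) => z j t.1 t.2) I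
    (fun j l => algebraMap ℚ_[p] K (c j l : ℚ_[p])) (pow_ne_zero k hp0) hc
    (relA fun a j i => z j a i) fun x hx a i => hx (a, i)
  refine ⟨r, e, hrm, ?_, hdim.trans (Nat.add_le_add_left he1 r), he2⟩
  obtain ⟨A, hA⟩ := hucos Q hQ0
  refine clos_hasRank' (fun t : (F →+* K) × Fin n => (W⁄M).map (ι t.1)) (r₀ := fun t => r₀ t.1)
    (z := fun l t => z (I l) t.1 t.2) (u := fun l => f ((N : ℤ) • u (I l))) (A := A.image f)
    (fun t => hLC t.1) (fun l t => hz (I l) t.1 t.2) hcind ?_ ?_ ?_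
  · intro l t
    exact hzu (I l) t.1 t.2
  · intro m'
    refine ⟨∑ l, m' l • ((N : ℤ) • u (I l)), ?_, ?_⟩
    · exact sum_mem fun l _ => zsmul_mem (zsmul_mem (huL (I l)) _) _
    · change f (∑ l, m' l • ((N : ℤ) • u (I l))) = _
      rw [map_sum]
      exact Finset.sum_congr rfl fun l _ => map_zsmul f _ _
  · rintro x ⟨P, hP, rfl⟩
    obtain ⟨s, hs, t, ht⟩ := hA P hP
    refine ⟨f s, Finset.mem_image_of_mem f hs, fun l => ∑ j, (t j : ℤ_[p]) * c j l, ?_⟩
    intro i
    change f P i = f s i + _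
    rw [ht, map_add, Pi.add_apply]
    congr 1
    have h1 : f (∑ j, t j • (Q • u j)) i = ∑ j, t j • pmap (W⁄M) (ι i.1) (Q • u j i.2) := by
      rw [map_sum, Finset.sum_apply]
      refine Finset.sum_congr rfl fun j _ => ?_
      rw [map_zsmul, Pi.smul_apply]
      rfl
    rw [h1]
    have h2 : ∑ l, algebraMap ℚ_[p] K (((∑ j, (t j : ℤ_[p]) * c j l : ℤ_[p])) : ℚ_[p]) *
        z (I l) i.1 i.2 =
        ∑ j, t j • ∑ l, algebraMap ℚ_[p] K (c j l : ℚ_[p]) * z (I l) i.1 i.2 := by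
      have h3 : ∀ l, algebraMap ℚ_[p] K (((∑ j, (t j : ℤ_[p]) * c j l : ℤ_[p])) : ℚ_[p]) *
          z (I l) i.1 i.2 = ∑ j, (t j : K) * (algebraMap ℚ_[p] K (c j l : ℚ_[p]) *
            z (I l) i.1 i.2) := by
        intro l
        rw [PadicInt.coe_sum, map_sum, Finset.sum_mul]
        refine Finset.sum_congr rfl fun j _ => ?_
        rw [PadicInt.coe_mul, PadicInt.coe_intCast, map_mul, map_intCast, mul_assoc]
      rw [Finset.sum_congr rfl fun l _ => h3 l, Finset.sum_comm]
      refine Finset.sum_congr rfl fun j _ => ?_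
      rw [← Finset.mul_sum, zsmul_eq_mul]
    rw [h2, expPt_sum ((W⁄M).map (ι i.1)) (hLC i.1) Finset.univ t _ fun j _ => hball j i]
    exact Finset.sum_congr rfl fun j _ => by rw [hpts j i]

end PCL

end
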