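import Pool.Agent.W_52423f_h99.GfG
import Pool.Agent.W_52423f_h70.CrC

/-!
# The rank of the closure of a subgroup of the twist, final form
-/

open scoped Classical

noncomputable section

namespace PCL

open Pool.Agent.PTwist WeierstrassCurve WeierstrassCurve.Affine

variable {F M : Type} [Field F] [NumberField F] [Field M] [NumberField M] [Algebra F M]
  [IsGalois F M]
variable {K : Type} [NontriviallyNormedField K] [CompleteSpace K] [IsUltrametricDist K]
  [IsAlgClosed K] {p : ℕ} [Fact p.Prime] [NormedAlgebra ℚ_[p] K]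

/-- The closure of a subgroup of rank `m` of the twist has a unique rank `r`, and `m - r` is at most
`[F : ℚ]` times the integral part of `2 m ^ 2 / (n + 2 m)`. -/
theorem main_H (W : WeierstrassCurve F) [W.IsElliptic] {n m : ℕ}
    (ρ : (M ≃ₐ[F] M) →* Matrix.GeneralLinearGroup (Fin n) ℤ) (hρ : Irr ρ)
    (ι : (F →+* K) → (M →+* K)) (hι : ∀ a, (ι a).comp (algebraMap F M) = a)
    (L : AddSubgroup (Fin n → (W⁄M).toAffine.Point)) (hL : ∀ P ∈ L, IsTw W ρ P) (hfg : L.FG)
    (hm : Module.finrank ℤ L = m) :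
    ∃ r : ℕ, (∀ r' : ℕ, HasRank (fun t : (F →+* K) × Fin n => (W⁄M).map (ι t.1)) p r'
      (clos (fun t : (F →+* K) × Fin n => (W⁄M).map (ι t.1))
        ((fun P t => pmap (W⁄M) (ι t.1) (P t.2)) '' (L : Set (Fin n → (W⁄M).toAffine.Point)))) ↔
          r' = r) ∧
      r ≤ m ∧ m ≤ r + Module.finrank ℚ F * (2 * m ^ 2 / (n + 2 * m)) ∧
      (2 * m * (m - 1) < n → r = m) := by
  have hK0 : CharZero K := Loc_charZero p K
  have hE : (W⁄M).IsElliptic :=
    inferInstanceAs (W.map (algebraMap F M)).IsElliptic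
  have hEt : ∀ t : (F →+* K) × Fin n, ((W⁄M).map (ι t.1)).IsElliptic := fun t =>
    inferInstanceAs ((W⁄M).map (ι t.1)).IsElliptic
  obtain ⟨r, e, hrm, hR, he1, he2⟩ := main_G (p := p) W ρ hρ ι hι L hL hfg hm
  have he3 : 0 < n + 2 * m → e ≤ 2 * m ^ 2 / (n + 2 * m) := fun h0 =>
    (Nat.le_div_iff_mul_le h0).2 he2
  have hbd : m ≤ r + Module.finrank ℚ F * (2 * m ^ 2 / (n + 2 * m)) := by
    rcases Nat.eq_zero_or_pos m with h0 | h0
    · rw [h0]
      exact Nat.zero_le _
    · exact he1.trans (Nat.add_le_add_left (Nat.mul_le_mul_left _ (he3 (by omega))) r)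
  refine ⟨r, fun r' => ⟨fun h => hasRank_unique (fun t : (F →+* K) × Fin n => (W⁄M).map (ι t.1)) h hR,
    fun h => h ▸ hR⟩, hrm, hbd, fun hn => ?_⟩
  have h1 : 2 * m ^ 2 / (n + 2 * m) = 0 := by
    apply Nat.div_eq_of_lt
    rcases Nat.eq_zero_or_pos m with h0 | h0
    · subst h0
      omega
    · obtain ⟨k, rfl⟩ : ∃ k, m = k + 1 := ⟨m - 1, by omega⟩
      rw [Nat.add_sub_cancel] at hn
      nlinarith
  rw [h1, mul_zero, add_zero] at hbd
  exact le_antisymm hrm hbd

end PCL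

end
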