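import Pool.Agent.W_52423f_h99.GfD
import Pool.Agent.W_52423f_h30.Clos
import Pool.Agent.W_52423f_h30.Tor
import Pool.Agent.W_52423f_h30.Grp

/-!
# The closure of a subgroup of rank `m` of the twist, general base field
-/

open scoped Classical

noncomputable section

namespace PCL

open Pool.Agent.PTwist WeierstrassCurve WeierstrassCurve.Affine

variable {F M : Type} [Field F] [NumberField F] [Field M] [NumberField M] [Algebra F M]
  [IsGalois F M]
variable {K : Type} [NontriviallyNormedField K] [CompleteSpace K] [IsUltrametricDist K]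
  [IsAlgClosed K] {p : ℕ} [Fact p.Prime] [NormedAlgebra ℚ_[p] K]

/-- The theorem over a general field `K`. -/
theorem main_F (W : WeierstrassCurve F) [W.IsElliptic] {n m : ℕ} (hn : 2 * m * (m - 1) < n)
    (ρ : (M ≃ₐ[F] M) →* Matrix.GeneralLinearGroup (Fin n) ℤ) (hρ : Irr ρ)
    (ι : (F →+* K) → (M →+* K)) (hι : ∀ a, (ι a).comp (algebraMap F M) = a)
    (L : AddSubgroup (Fin n → (W⁄M).toAffine.Point)) (hL : ∀ P ∈ L, IsTw W ρ P) (hfg : L.FG)
    (hr : Module.finrank ℤ L = m) :
    HasRank (fun t : (F →+* K) × Fin n => (W⁄M).map (ι t.1)) p m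
      (clos (fun t : (F →+* K) × Fin n => (W⁄M).map (ι t.1))
        ((fun P t => pmap (W⁄M) (ι t.1) (P t.2)) '' (L : Set (Fin n → (W⁄M).toAffine.Point)))) := by
  have hK0 : CharZero K := Loc_charZero p K
  have hE : (W⁄M).IsElliptic :=
    inferInstanceAs (W.map (algebraMap F M)).IsElliptic
  have hEa : ∀ a : F →+* K, ((W⁄M).map (ι a)).IsElliptic := fun a =>
    inferInstanceAs ((W⁄M).map (ι a)).IsElliptic
  have hEt : ∀ t : (F →+* K) × Fin n, ((W⁄M).map (ι t.1)).IsElliptic := fun t => hEa t.1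
  obtain ⟨u, huL, huind, hucos⟩ := Grp_basis hfg hr
  choose r₀ hLC using fun a : F →+* K => exists_LC p ((W⁄M).map (ι a)).b₂ ((W⁄M).map (ι a)).b₄
    ((W⁄M).map (ι a)).b₆
  choose R hR using fun a : F →+* K => expPt_surj ((W⁄M).map (ι a)) (hLC a)
  obtain ⟨R₁, hR₁⟩ := Finite.exists_le R
  obtain ⟨N, hN0, hN⟩ := exists_near_family (W⁄M) (K := K) p
    (T := (F →+* K) × (Fin m × Fin n)) (fun t => ι t.1) (fun t => u t.2.1 t.2.2) R₁
  have hex : ∀ (j : Fin m) (a : F →+* K) (i : Fin n), ∃ z : K, ‖z‖ ≤ rad (r₀ a) ∧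
      expPt ((W⁄M).map (ι a)) z = pmap (W⁄M) (ι a) ((N : ℤ) • u j i) := fun j a i =>
    hR a _ (near_mono _ (hR₁ a) (hN (a, (j, i))))
  choose z hz hzu using hex
  -- the homomorphism to the product
  let f : (Fin n → (W⁄M).toAffine.Point) →+
      ((t : (F →+* K) × Fin n) → ((W⁄M).map (ι t.1)).toAffine.Point) :=
    { toFun := fun P t => pmap (W⁄M) (ι t.1) (P t.2)
      map_zero' := by
        funext t
        exact pmap_zero (W⁄M) (ι t.1)
      map_add' := by
        intro P Q
        funext t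
        exact pmap_add (W⁄M) (ι t.1) (P t.2) (Q t.2) }
  have hf : ∀ P t, f P t = pmap (W⁄M) (ι t.1) (P t.2) := fun P t => rfl
  have hNz : (N : ℤ) ≠ 0 := by exact_mod_cast hN0.ne'
  obtain ⟨A, hA⟩ := hucos N hNz
  refine clos_hasRank (fun t : (F →+* K) × Fin n => (W⁄M).map (ι t.1))
    (r₀ := fun t => r₀ t.1) (z := fun j t => z j t.1 t.2)
    (u := fun j => f ((N : ℤ) • u j)) (A := A.image f) (fun t => hLC t.1)
    (fun j t => hz j t.1 t.2) ?_ ?_ ?_ ?_
  · -- independence
    intro x hx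
    refine logs_indep_F (W := W) (ρ := ρ) (ι := ι) (r₀ := r₀) (u := fun j => (N : ℤ) • u j)
      (z := fun a j i => z j a i) hρ ⟨hι, hLC, fun a j i => hz j a i, fun a j i => hzu j a i⟩
      (fun j => IsTw.zsmul (hL _ (huL j)) N) ?_ hn x fun a i => hx (a, i)
    intro t ht
    have h3 := huind (fun j => t j * N) (by
      rw [← ht]
      exact Finset.sum_congr rfl fun j _ => mul_smul _ _ _)
    funext j
    exact (mul_eq_zero.1 (congrFun h3 j)).resolve_right hNz
  · intro j t
    rw [hf]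
    exact hzu j t.1 t.2
  · intro m'
    refine ⟨∑ j, m' j • ((N : ℤ) • u j), ?_, ?_⟩
    · exact sum_mem fun j _ => zsmul_mem (zsmul_mem (huL j) _) _
    · change f (∑ j, m' j • ((N : ℤ) • u j)) = _
      rw [map_sum]
      exact Finset.sum_congr rfl fun j _ => map_zsmul f _ _
  · rintro x ⟨P, hP, rfl⟩
    obtain ⟨s, hs, m', hm'⟩ := hA P hP
    refine ⟨f s, Finset.mem_image_of_mem f hs, m', ?_⟩
    change f P = _
    rw [hm', map_add, map_sum]
    congr 1
    exact Finset.sum_congr rfl fun j _ => map_zsmul f _ _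

end PCL

end
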